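import Pool.Agent.Work.MP_03d391_lto.Interface

set_option autoImplicit false

noncomputable section

namespace Pool.LTO

open MvPolynomial

namespace LAx

variable {k : Type} [Field k]

attribute [local instance] MvPolynomial.gradedAlgebra

/-- The graded component of a product with a form. -/
theorem hc_mul {n m : ℕ} (s q : Sx k) (hq : q.IsHomogeneous m) :
    homogeneousComponent (n + m) (s * q) = homogeneousComponent n s * q := by
  have h := DirectSum.coe_decompose_mul_add_of_right_mem (homogeneousSubmodule (Fin 4) k) (a := s) (i := n)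
    (j := m) (b := q) ((mem_homogeneousSubmodule _ _).2 hq)
  have e1 := decomposition.decompose'_apply (s * q) (n + m)
  have e2 := decomposition.decompose'_apply s n
  rw [← e1, ← e2]
  exact h

/-- The span over `K'` of the images of the forms of degree `n`. -/
def W (K' : IntermediateField k (FractionRing (Sx k))) (n : ℕ) : Submodule K' (FractionRing (Sx k)) :=
  Submodule.span K' {y | ∃ s : Sx k, s.IsHomogeneous n ∧ y = algebraMap (Sx k) (FractionRing (Sx k)) s}

theorem mem_W {K' : IntermediateField k (FractionRing (Sx k))} {n : ℕ} {s : Sx k} (hs : s.IsHomogeneous n) :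
    algebraMap (Sx k) (FractionRing (Sx k)) s ∈ W K' n := Submodule.subset_span ⟨s, hs, rfl⟩

theorem W_fin (K' : IntermediateField k (FractionRing (Sx k))) (n : ℕ) : FiniteDimensional K' (W K' n) := by
  classical
  have hfin : (Set.range (fun u : {u : Fin 4 →₀ ℕ // u ∈ (Finset.Nat.antidiagonalTuple 4 n).image (fun v => Finsupp.equivFunOnFinite.symm v)} =>
      algebraMap (Sx k) (FractionRing (Sx k)) (monomial u.1 (1 : k)))).Finite := Set.finite_range _
  have hle : W K' n ≤ Submodule.span K' (Set.range (fun u : {u : Fin 4 →₀ ℕ // u ∈ (Finset.Nat.antidiagonalTuple 4 n).image (fun v => Finsupp.equivFunOnFinite.symm v)} =>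
      algebraMap (Sx k) (FractionRing (Sx k)) (monomial u.1 (1 : k)))) := by
    refine Submodule.span_le.2 ?_
    rintro y ⟨s, hs, rfl⟩
    rw [s.as_sum, map_sum]
    refine Submodule.sum_mem _ fun u hu => ?_
    have hdeg : u.degree = n := by
      have := hs (mem_support_iff.1 hu)
      rw [← this]
      simp [Finsupp.degree, Finsupp.weight_apply, Finsupp.sum]
    have hmem : u ∈ (Finset.Nat.antidiagonalTuple 4 n).image (fun v => Finsupp.equivFunOnFinite.symm v) := by
      refine Finset.mem_image.2 ⟨fun i => u i, ?_, ?_⟩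
      · rw [Finset.Nat.mem_antidiagonalTuple, ← hdeg, Finsupp.degree_eq_sum]
      · ext i
        rfl
    have h1 : algebraMap (Sx k) (FractionRing (Sx k)) (monomial u (coeff u s)) =
        (algebraMap k K' (coeff u s)) • algebraMap (Sx k) (FractionRing (Sx k)) (monomial u (1 : k)) := by
      rw [← mul_one (coeff u s), ← C_mul_monomial, map_mul, mul_one, Algebra.smul_def]
      congr 1
    rw [h1]
    exact Submodule.smul_mem _ _ (Submodule.subset_span ⟨⟨u, hmem⟩, rfl⟩)
  have : FiniteDimensional K' (Submodule.span K' (Set.range (fun u : {u : Fin 4 →₀ ℕ // u ∈ (Finset.Nat.antidiagonalTuple 4 n).image (fun v => Finsupp.equivFunOnFinite.symm v)} =>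
      algebraMap (Sx k) (FractionRing (Sx k)) (monomial u.1 (1 : k))))) := FiniteDimensional.span_of_finite K' hfin
  exact Submodule.finiteDimensional_of_le hle

/-- The lower bound. -/
theorem W_card {K' : IntermediateField k (FractionRing (Sx k))} {i j : Fin 4}
    (h : AlgebraicIndependent K' ![algebraMap (Sx k) (FractionRing (Sx k)) (X i), algebraMap (Sx k) (FractionRing (Sx k)) (X j)])
    (n : ℕ) : n + 1 ≤ Module.finrank K' (W K' n) := by
  classical
  set x : Fin 2 → FractionRing (Sx k) := ![algebraMap (Sx k) (FractionRing (Sx k)) (X i), algebraMap (Sx k) (FractionRing (Sx k)) (X j)] with hx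
  let g : Fin (n + 1) → (Fin 2 →₀ ℕ) := fun a => Finsupp.equivFunOnFinite.symm ![(a : ℕ), n - a]
  have hg : Function.Injective g := by
    intro a b hab
    have h0 := congrArg (fun u : Fin 2 →₀ ℕ => u 0) hab
    simp [g] at h0
    exact Fin.ext h0
  let v : Fin (n + 1) → FractionRing (Sx k) := fun a => x 0 ^ (a : ℕ) * x 1 ^ (n - (a : ℕ))
  have hv : LinearIndependent K' v := by
    have h1 : LinearIndependent K' (fun a : Fin (n + 1) => (monomial (g a) (1 : K') : MvPolynomial (Fin 2) K')) := by
      have h2 := (basisMonomials (Fin 2) K').linearIndependent.comp g hg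
      simpa [Function.comp_def, coe_basisMonomials] using h2
    have h3 := h1.map' (aeval x : MvPolynomial (Fin 2) K' →ₐ[K'] FractionRing (Sx k)).toLinearMap
      (LinearMap.ker_eq_bot.2 h)
    have h4 : (fun a : Fin (n + 1) => (aeval x : MvPolynomial (Fin 2) K' →ₐ[K'] FractionRing (Sx k)).toLinearMap
        (monomial (g a) (1 : K'))) = v := by
      funext a
      simp only [AlgHom.toLinearMap_apply, aeval_monomial, map_one, one_mul]
      rw [Finsupp.prod_fintype _ _ (fun _ => pow_zero _), Fin.prod_univ_two]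
      simp [g, v]
    rw [← h4]
    exact h3
  have hW : ∀ a, v a ∈ W K' n := by
    intro a
    have h5 : v a = algebraMap (Sx k) (FractionRing (Sx k)) (X i ^ (a : ℕ) * X j ^ (n - (a : ℕ))) := by
      simp [v, hx]
    rw [h5]
    refine mem_W ?_
    have h6 := ((isHomogeneous_X k i).pow (a : ℕ)).mul ((isHomogeneous_X k j).pow (n - (a : ℕ)))
    have h7 : 1 * (a : ℕ) + 1 * (n - (a : ℕ)) = n := by
      have := a.2
      omega
    rwa [h7] at h6
  have := W_fin K' n
  have h8 : Submodule.span K' (Set.range v) ≤ W K' n := Submodule.span_le.2 (by rintro _ ⟨a, rfl⟩; exact hW a)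
  have h9 := finrank_span_eq_card hv
  have h10 := Submodule.finrank_mono h8
  rw [h9, Fintype.card_fin] at h10
  exact h10

/-- Forms of large degree multiply `f` into the ideal. -/
theorem mul_mem {J : Ideal (Sx k)} {f : Sx k} {N : ℕ} (hN : ∀ j : Fin 4, (X j : Sx k) ^ N * f ∈ J) {s : Sx k} {n : ℕ}
    (hs : s.IsHomogeneous n) (hn : 4 * N ≤ n) : s * f ∈ J := by
  classical
  rw [s.as_sum, Finset.sum_mul]
  refine Ideal.sum_mem _ fun u hu => ?_
  have hdeg : ∑ i : Fin 4, u i = n := by
    have := hs (mem_support_iff.1 hu)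
    rw [← this, ← Finsupp.degree_eq_sum]
    simp [Finsupp.degree, Finsupp.weight_apply, Finsupp.sum]
  by_cases hN0 : N = 0
  · subst hN0
    have := hN 0
    rw [pow_zero, one_mul] at this
    exact Ideal.mul_mem_left _ _ this
  obtain ⟨j, hj⟩ : ∃ j, N ≤ u j := by
    by_contra hcon
    simp only [not_exists, not_le] at hcon
    have h0 := hcon 0
    have h1 := hcon 1
    have h2 := hcon 2
    have h3 := hcon 3
    rw [Fin.sum_univ_four] at hdeg
    omega
  have h1 : (monomial u (coeff u s) : Sx k) = monomial (u - Finsupp.single j N) (coeff u s) * X j ^ N := by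
    have h2 : u - Finsupp.single j N + Finsupp.single j N = u := by
      refine tsub_add_cancel_of_le fun i => ?_
      by_cases hij : j = i
      · subst hij
        simpa using hj
      · simp [hij]
    rw [X_pow_eq_monomial, monomial_mul, mul_one, h2]
  rw [h1, mul_assoc]
  exact Ideal.mul_mem_left _ _ (hN j)

theorem fid {K : Type} [Field K] (F S d Q B s1 s2 s3 s4 : K) (hd : d ≠ 0)
    (h : S * F = s1 * Q + s2 * d ^ 2 + s3 * (d * B) + s4 * B ^ 2) :
    F / d ^ 2 * S = Q / d ^ 2 * s1 + 1 * s2 + B / d * s3 + (B / d) ^ 2 * s4 := by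
  field_simp
  rw [mul_comm F, h]
  ring

end LAx

open LAx in
/-- **LA.** -/
theorem p_LA (hIND : Stmt_IND) : Stmt_LA := by
  classical
  intro k _ m l b D q f hb hD hq hf hl hD0 hJ
  by_contra hf0
  choose Nj hNj using hJ
  obtain ⟨N, hN⟩ : ∃ N : ℕ, ∀ j : Fin 4, (X j : Sx k) ^ N * f ∈ Ideal.span {q, D ^ 2, D * b, b ^ 2} := by
    refine ⟨∑ j, Nj j, fun j => ?_⟩
    have h1 : Nj j ≤ ∑ j, Nj j := Finset.single_le_sum (fun _ _ => Nat.zero_le _) (Finset.mem_univ j)
    obtain ⟨c, hc⟩ := Nat.exists_eq_add_of_le h1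
    rw [hc, pow_add, mul_comm ((X j : Sx k) ^ Nj j), mul_assoc]
    exact Ideal.mul_mem_left _ _ (hNj j)
  let K := FractionRing (Sx k)
  let ι : Sx k →+* K := algebraMap (Sx k) K
  have hι : Function.Injective ι := IsFractionRing.injective (Sx k) K
  have hD' : ι D ≠ 0 := fun h => hD0 (hι (by rw [h, map_zero]))
  have hf' : ι f ≠ 0 := fun h => hf0 (hι (by rw [h, map_zero]))
  let z : K := ι b / ι D
  let w : K := ι q / ι D ^ 2
  let K' : IntermediateField k K := IntermediateField.adjoin k {z, w}
  have hz : z ∈ K' := IntermediateField.subset_adjoin k _ (by simp)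
  have hw : w ∈ K' := IntermediateField.subset_adjoin k _ (by simp)
  obtain ⟨i, j, -, hij⟩ := hIND k z w
  have hcard : ∀ n, n + 1 ≤ Module.finrank K' (W K' n) := fun n => W_card hij n
  let θ : K := ι f / ι D ^ 2
  have hθ : θ ≠ 0 := div_ne_zero hf' (pow_ne_zero _ hD')
  -- multiplication by theta
  have hmul : ∀ n, 4 * N ≤ n → 2 * m ≤ n + l → ∀ y ∈ W K' n, θ * y ∈ W K' (n + l - 2 * m) := by
    intro n hn hn2 y hy
    refine Submodule.span_induction (p := fun y _ => θ * y ∈ W K' (n + l - 2 * m)) ?_ ?_ ?_ ?_ hy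
    · rintro y ⟨s, hs, rfl⟩
      have h1 := mul_mem hN hs hn
      rw [Ideal.mem_span_insert] at h1
      obtain ⟨s1, r1, hr1, e1⟩ := h1
      rw [Ideal.mem_span_insert] at hr1
      obtain ⟨s2, r2, hr2, e2⟩ := hr1
      rw [Ideal.mem_span_insert] at hr2
      obtain ⟨s3, r3, hr3, e3⟩ := hr2
      rw [Ideal.mem_span_singleton'] at hr3
      obtain ⟨s4, e4⟩ := hr3
      have hD2 : (D ^ 2).IsHomogeneous (2 * m) := by
        have := hD.pow 2
        rwa [mul_comm] at this
      have hb2 : (b ^ 2).IsHomogeneous (2 * m) := by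
        have := hb.pow 2
        rwa [mul_comm] at this
      have hDb : (D * b).IsHomogeneous (2 * m) := by
        have := hD.mul hb
        rwa [← two_mul] at this
      have e5 : s * f = s1 * q + s2 * D ^ 2 + s3 * (D * b) + s4 * b ^ 2 := by
        rw [e1, e2, e3, ← e4]
        ring
      obtain ⟨c, hc⟩ : ∃ c, n + l = c + 2 * m := ⟨n + l - 2 * m, by omega⟩
      have e6 : s * f = homogeneousComponent c s1 * q + homogeneousComponent c s2 * D ^ 2 +
          homogeneousComponent c s3 * (D * b) + homogeneousComponent c s4 * b ^ 2 := by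
        have h2 : homogeneousComponent (c + 2 * m) (s * f) = s * f := by
          have h3 := hs.mul hf
          rw [hc] at h3
          exact homogeneousComponent_eq_self h3
        rw [← h2, e5, map_add, map_add, map_add, hc_mul _ _ hq, hc_mul _ _ hD2, hc_mul _ _ hDb, hc_mul _ _ hb2]
      have hc' : n + l - 2 * m = c := by omega
      rw [hc']
      have e7 : θ * ι s = (⟨w, hw⟩ : K') • ι (homogeneousComponent c s1) + (1 : K') • ι (homogeneousComponent c s2) +
          (⟨z, hz⟩ : K') • ι (homogeneousComponent c s3) + ((⟨z, hz⟩ : K') ^ 2) • ι (homogeneousComponent c s4) := by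
        have e8 := congrArg ι e6
        simp only [map_add, map_mul, map_pow] at e8
        simp only [Algebra.smul_def, map_one, map_pow]
        have a1 : algebraMap K' K (⟨w, hw⟩ : K') = ι q / ι D ^ 2 := rfl
        have a2 : algebraMap K' K (⟨z, hz⟩ : K') = ι b / ι D := rfl
        rw [a1, a2]
        exact fid (ι f) (ι s) (ι D) (ι q) (ι b) _ _ _ _ hD' e8
      have hmemc : ∀ s' : Sx k, ι (homogeneousComponent c s') ∈ W K' c := fun s' =>
        mem_W (homogeneousComponent_isHomogeneous c s')
      show θ * ι s ∈ W K' c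
      rw [e7]
      exact Submodule.add_mem _ (Submodule.add_mem _ (Submodule.add_mem _ (Submodule.smul_mem _ _ (hmemc _))
        (Submodule.smul_mem _ _ (hmemc _))) (Submodule.smul_mem _ _ (hmemc _))) (Submodule.smul_mem _ _ (hmemc _))
    · rw [mul_zero]
      exact Submodule.zero_mem _
    · intro x y _ _ hx hy
      rw [mul_add]
      exact Submodule.add_mem _ hx hy
    · intro a x _ hx
      rw [mul_smul_comm]
      exact Submodule.smul_mem _ _ hx
  have hrank : ∀ n, 4 * N ≤ n → 2 * m ≤ n + l → Module.finrank K' (W K' n) ≤ Module.finrank K' (W K' (n + l - 2 * m)) := by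
    intro n hn hn2
    have := W_fin K' n
    have := W_fin K' (n + l - 2 * m)
    let φ : W K' n →ₗ[K'] W K' (n + l - 2 * m) :=
      { toFun := fun y => ⟨θ * y.1, hmul n hn hn2 y.1 y.2⟩
        map_add' := fun x y => Subtype.ext (mul_add _ _ _)
        map_smul' := fun a x => Subtype.ext (mul_smul_comm _ _ _) }
    refine LinearMap.finrank_le_finrank_of_injective (f := φ) ?_
    intro x y hxy
    have h1 := congrArg Subtype.val hxy
    exact Subtype.ext (mul_left_cancel₀ hθ h1)
  obtain ⟨c, hc⟩ : ∃ c, 2 * m = l + (c + 1) := ⟨2 * m - l - 1, by omega⟩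
  have hstep : ∀ t : ℕ, Module.finrank K' (W K' (4 * N + 2 * m + (c + 1) * t)) ≤ Module.finrank K' (W K' (4 * N + 2 * m)) := by
    intro t
    induction t with
    | zero => simp
    | succ t ih =>
      refine le_trans (hrank _ (by rw [mul_add]; omega) (by omega)) ?_
      have h1 : 4 * N + 2 * m + (c + 1) * (t + 1) + l - 2 * m = 4 * N + 2 * m + (c + 1) * t := by
        rw [mul_add]
        omega
      rw [h1]
      exact ih
  have h1 := hstep (Module.finrank K' (W K' (4 * N + 2 * m)))
  have h2 := hcard (4 * N + 2 * m + (c + 1) * Module.finrank K' (W K' (4 * N + 2 * m)))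
  have h3 : Module.finrank K' (W K' (4 * N + 2 * m)) ≤ (c + 1) * Module.finrank K' (W K' (4 * N + 2 * m)) :=
    Nat.le_mul_of_pos_left _ (Nat.succ_pos _)
  omega

end Pool.LTO
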