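import Pool.Agent.Work.MP_03d391_lto.Interface

/-! Block CHG: change of the constant lattice. -/

set_option autoImplicit false

noncomputable section

namespace Pool.LTO

open MvPolynomial

theorem chg_solve {R : Type} [CommRing R] [IsDomain R] (x0 x1 y0 y1 : R) (hd : x0 * y1 - x1 * y0 ≠ 0)
    (U V : R) (h0 : x0 * U + y0 * V = 0) (h1 : x1 * U + y1 * V = 0) : U = 0 ∧ V = 0 := by
  constructor
  · have : (x0 * y1 - x1 * y0) * U = 0 := by linear_combination y1 * h0 - y0 * h1
    exact (mul_eq_zero.mp this).resolve_left hd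
  · have : (x0 * y1 - x1 * y0) * V = 0 := by linear_combination x0 * h1 - x1 * h0
    exact (mul_eq_zero.mp this).resolve_left hd

theorem chg_Tc_apply {k : Type} [Field k] (c c' : Fin 2 → k) (e : Fr k) (a : Fin 2) :
    Tc c c' e a = Polynomial.C (C (c a)) * e 0 + Polynomial.X * (Polynomial.C (C (c' a)) * e 1) := rfl

theorem chg_coeff {k : Type} [Field k] (c c' : Fin 2 → k) (e : Fr k) (a : Fin 2) (j : ℕ) :
    (Tc c c' e a).coeff j = C (c a) * (e 0).coeff j + C (c' a) * (Polynomial.X * e 1).coeff j := by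
  rw [chg_Tc_apply, Polynomial.coeff_add, Polynomial.coeff_C_mul]
  congr 1
  rw [show Polynomial.X * (Polynomial.C (C (c' a)) * e 1) = Polynomial.C (C (c' a)) * (Polynomial.X * e 1) by ring,
    Polynomial.coeff_C_mul]

theorem chg_det_ne {k : Type} [Field k] (c c' : Fin 2 → k) (hd : c 0 * c' 1 - c 1 * c' 0 ≠ 0) :
    (C (c 0) * C (c' 1) - C (c 1) * C (c' 0) : Sx k) ≠ 0 := by
  rw [← C_mul, ← C_mul, ← C_sub]
  intro h
  exact hd ((C_eq_zero).mp h)

theorem chg_det_ne' {k : Type} [Field k] (c c' : Fin 2 → k) (hd : c 0 * c' 1 - c 1 * c' 0 ≠ 0) :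
    (Polynomial.C (C (c 0)) * Polynomial.C (C (c' 1)) - Polynomial.C (C (c 1)) * Polynomial.C (C (c' 0)) :
      Polynomial (Sx k)) ≠ 0 := by
  rw [← Polynomial.C_mul, ← Polynomial.C_mul, ← Polynomial.C_sub]
  intro h
  exact chg_det_ne c c' hd (Polynomial.C_eq_zero.mp h)

theorem chg_inj {k : Type} [Field k] (c c' : Fin 2 → k) (hd : c 0 * c' 1 - c 1 * c' 0 ≠ 0) (e e' : Fr k)
    (h : Tc c c' e = Tc c c' e') : e = e' := by
  have h0 := congrFun h 0
  have h1 := congrFun h 1
  rw [chg_Tc_apply, chg_Tc_apply] at h0 h1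
  obtain ⟨hu, hv⟩ := chg_solve _ _ _ _ (chg_det_ne' c c' hd) (e 0 - e' 0) (Polynomial.X * (e 1 - e' 1))
    (by linear_combination h0) (by linear_combination h1)
  funext a
  fin_cases a
  · exact sub_eq_zero.mp hu
  · rcases mul_eq_zero.mp hv with hx | hx
    · exact absurd hx Polynomial.X_ne_zero
    · exact sub_eq_zero.mp hx

theorem chg_surj {k : Type} [Field k] (c c' : Fin 2 → k) (hd : c 0 * c' 1 - c 1 * c' 0 ≠ 0) (e : Fr k)
    (he : ∃ g : Sx k, ∀ a, (e a).coeff 0 = C (c a) * g) : ∃ e' : Fr k, Tc c c' e' = e := by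
  obtain ⟨g, hg⟩ := he
  set dd : k := c 0 * c' 1 - c 1 * c' 0 with hdd
  have hCC : (Polynomial.C (C dd⁻¹) : Polynomial (Sx k)) *
      (Polynomial.C (C (c 0)) * Polynomial.C (C (c' 1)) - Polynomial.C (C (c 1)) * Polynomial.C (C (c' 0))) = 1 := by
    rw [← Polynomial.C_mul, ← Polynomial.C_mul, ← Polynomial.C_sub, ← C_mul, ← C_mul, ← C_sub, ← Polynomial.C_mul,
      ← C_mul, ← hdd, inv_mul_cancel₀ hd, C_1, Polynomial.C_1]
  set γ : Polynomial (Sx k) := Polynomial.C (C dd⁻¹) *
    (Polynomial.C (C (c 0)) * e 1 - Polynomial.C (C (c 1)) * e 0) with hγ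
  have hγ0 : γ.coeff 0 = 0 := by
    rw [hγ, Polynomial.coeff_C_mul, Polynomial.coeff_sub, Polynomial.coeff_C_mul, Polynomial.coeff_C_mul, hg 0, hg 1]
    ring
  have hX : Polynomial.X * γ.divX = γ := by
    have := Polynomial.X_mul_divX_add γ
    rw [hγ0, Polynomial.C_0, add_zero] at this
    exact this
  refine ⟨![Polynomial.C (C dd⁻¹) * (Polynomial.C (C (c' 1)) * e 0 - Polynomial.C (C (c' 0)) * e 1), γ.divX], ?_⟩
  funext a
  rw [chg_Tc_apply]
  simp only [Matrix.cons_val_zero, Matrix.cons_val_one]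
  rw [show Polynomial.X * (Polynomial.C (C (c' a)) * γ.divX) = Polynomial.C (C (c' a)) * (Polynomial.X * γ.divX) by ring,
    hX, hγ]
  fin_cases a
  · simp only [Fin.zero_eta, Fin.isValue]
    linear_combination (e 0) * hCC
  · simp only [Fin.mk_one, Fin.isValue]
    linear_combination (e 1) * hCC

theorem p_CHG : Stmt_CHG := by
  intro k _ n E c c' hd hE hc
  have hsurj : ∀ e ∈ E, ∃ e' : Fr k, Tc c c' e' = e := fun e he => chg_surj c c' hd e (hc e he)
  refine ⟨?_, ?_, ?_⟩
  · refine ⟨?_, ?_, ?_, ?_⟩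
    · intro e' he' m
      obtain ⟨e2, he2, hco⟩ := hE.hom _ he' m
      obtain ⟨e3, he3⟩ := hsurj e2 he2
      refine ⟨e3, ?_, ?_⟩
      · rw [Submodule.mem_comap, he3]
        exact he2
      · have hmain : ∀ j, (e3 0).coeff j = homogeneousComponent m ((e' 0).coeff j) ∧
            (Polynomial.X * e3 1).coeff j = homogeneousComponent m ((Polynomial.X * e' 1).coeff j) := by
          intro j
          have heq : ∀ a, C (c a) * ((e3 0).coeff j - homogeneousComponent m ((e' 0).coeff j)) +
              C (c' a) * ((Polynomial.X * e3 1).coeff j - homogeneousComponent m ((Polynomial.X * e' 1).coeff j)) = 0 := by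
            intro a
            have h1 := hco a j
            rw [← he3, chg_coeff, chg_coeff, map_add, homogeneousComponent_C_mul, homogeneousComponent_C_mul] at h1
            linear_combination h1
          obtain ⟨hu, hv⟩ := chg_solve _ _ _ _ (chg_det_ne c c' hd) _ _ (heq 0) (heq 1)
          exact ⟨sub_eq_zero.mp hu, sub_eq_zero.mp hv⟩
        intro a j
        fin_cases a
        · exact (hmain j).1
        · have h2 := (hmain (j + 1)).2
          rw [Polynomial.coeff_X_mul, Polynomial.coeff_X_mul] at h2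
          exact h2
    · obtain ⟨N, hN⟩ := hE.pow
      refine ⟨N, fun e' => ?_⟩
      rw [Submodule.mem_comap, map_smul]
      exact hN _
    · intro e' he'
      rw [Submodule.mem_comap]
      apply hE.sat
      intro i
      obtain ⟨N, hN⟩ := he' i
      refine ⟨N, ?_⟩
      rw [Submodule.mem_comap, map_smul] at hN
      exact hN
    · intro p hp hi
      obtain ⟨v, hv, w, hw, h, u, hh, hu, hgen, hdet⟩ := hE.loc p hp hi
      obtain ⟨v', hv'⟩ := hsurj v hv
      obtain ⟨w', hw'⟩ := hsurj w hw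
      set dd : k := c 0 * c' 1 - c 1 * c' 0 with hdd
      have hinv : (C dd⁻¹ * C dd : Sx k) = 1 := by
        rw [← C_mul, inv_mul_cancel₀ hd, C_1]
      have hCC : (Polynomial.C (C dd⁻¹) : Polynomial (Sx k)) *
          (Polynomial.C (C (c 0)) * Polynomial.C (C (c' 1)) - Polynomial.C (C (c 1)) * Polynomial.C (C (c' 0))) = 1 := by
        rw [← Polynomial.C_mul, ← Polynomial.C_mul, ← Polynomial.C_sub, ← C_mul, ← C_mul, ← C_sub, ← Polynomial.C_mul,
          ← C_mul, ← hdd, inv_mul_cancel₀ hd, C_1, Polynomial.C_1]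
      refine ⟨v', ?_, w', ?_, h, Polynomial.C (C dd⁻¹) * u, hh, ?_, ?_, ?_⟩
      · rw [Submodule.mem_comap, hv']
        exact hv
      · rw [Submodule.mem_comap, hw']
        exact hw
      · rw [Polynomial.coeff_C_mul]
        intro hmem
        apply hu
        have := p.mul_mem_left (C dd) hmem
        rw [show C dd * (C dd⁻¹ * u.coeff 0) = (C dd⁻¹ * C dd) * u.coeff 0 by ring, hinv, one_mul] at this
        exact this
      · intro e' he'
        obtain ⟨a, b, hab⟩ := hgen _ he'
        refine ⟨a, b, chg_inj c c' hd _ _ ?_⟩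
        rw [map_smul, hab, map_add, map_smul, map_smul, hv', hw']
      · have h1 : (Polynomial.X : Polynomial (Sx k)) * ((Polynomial.C (C (c 0)) * Polynomial.C (C (c' 1)) -
            Polynomial.C (C (c 1)) * Polynomial.C (C (c' 0))) * (v' 0 * w' 1 - v' 1 * w' 0)) =
            Polynomial.X * (Polynomial.X ^ n * u) := by
          rw [← hv', ← hw'] at hdet
          rw [chg_Tc_apply, chg_Tc_apply, chg_Tc_apply, chg_Tc_apply] at hdet
          rw [pow_succ] at hdet
          linear_combination hdet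
        have h2 := mul_left_cancel₀ Polynomial.X_ne_zero h1
        linear_combination Polynomial.C (C dd⁻¹) * h2 - (v' 0 * w' 1 - v' 1 * w' 0) * hCC
  · intro hT p hp hi
    obtain ⟨e, he, a, hea⟩ := hT p hp hi
    obtain ⟨e', he'⟩ := hsurj e he
    refine ⟨e', ?_, ?_⟩
    · rw [Submodule.mem_comap, he']
      exact he
    · by_contra hcon
      push Not at hcon
      have h00 := (hcon 0).1
      have h01 := (hcon 0).2
      have h10 := (hcon 1).1
      rcases hea with h | h
      · apply h
        rw [← he', chg_coeff, Polynomial.coeff_X_mul_zero, mul_zero, add_zero]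
        exact p.mul_mem_left _ h00
      · apply h
        rw [← he', chg_coeff, Polynomial.coeff_X_mul]
        exact p.add_mem (p.mul_mem_left _ h01) (p.mul_mem_left _ h10)
  · rw [Submodule.map_comap_eq_of_le]
    intro e he
    obtain ⟨e', he'⟩ := hsurj e he
    exact ⟨e', he'⟩

end Pool.LTO
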