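import Pool.Agent.Work.MP_03d391_lto.Interface

/-! Block CLM: the claim at a point. -/

set_option autoImplicit false

noncomputable section

namespace Pool.LTO

open MvPolynomial

/-- proportional vectors: the Wronskians are proportional to the squares -/
theorem CLM_prop {R : Type} [CommRing R] (d : R → R) (hm : ∀ a b, d (a * b) = a * d b + b * d a)
    (b D e g : R) (h : e * D = g * b) :
    g ^ 2 * (D * d b - b * d D) = D ^ 2 * (g * d e - e * d g) := by
  have h1 : e * d D + D * d e = g * d b + b * d g := by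
    rw [← hm, ← hm, h]
  have h2 : g * d b = e * d D + D * d e - b * d g := by
    rw [h1]; ring
  calc g ^ 2 * (D * d b - b * d D) = g * D * (g * d b) - g * (g * b) * d D := by ring
    _ = g * D * (e * d D + D * d e - b * d g) - g * (e * D) * d D := by rw [h2, h]
    _ = g * D * D * d e - D * (g * b) * d g := by ring
    _ = g * D * D * d e - D * (e * D) * d g := by rw [h]
    _ = D ^ 2 * (g * d e - e * d g) := by ring

/-- the core of the claim: one vector `v` with `D_1(v) ∉ p` -/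
theorem CLM_core (hL : Stmt_LOC) {R : Type} [CommRing R] [IsDomain R] [UniqueFactorizationMonoid R] (d : R → R)
    (ha : ∀ a b, d (a + b) = d a + d b) (hm : ∀ a b, d (a * b) = a * d b + b * d a) (p : Ideal R) (hp : p.IsPrime) (n : ℕ)
    (vb vD wb wD zb zD u : Polynomial R) (hdet : vb * wD - vD * wb = Polynomial.X ^ n * u) (hu : u.coeff 0 ∉ p)
    (hv0 : vD.coeff 0 ∈ p) (hv1 : vD.coeff 1 ∉ p) (hz : zD.coeff 0 ≠ 0)
    (R0 : vb.coeff 0 * zD.coeff 0 = vD.coeff 0 * zb.coeff 0)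
    (R1 : vb.coeff 1 * zD.coeff 0 + vb.coeff 0 * zD.coeff 1 = vD.coeff 1 * zb.coeff 0 + vD.coeff 0 * zb.coeff 1) :
    ∃ s : R, s ∉ p ∧ ∃ α β : R, s * (zD.coeff 0 * d (zb.coeff 0) - zb.coeff 0 * d (zD.coeff 0)) =
      α * (zb.coeff 1 * zD.coeff 0 - zb.coeff 0 * zD.coeff 1) + β * zD.coeff 0 ^ 2 := by
  by_cases h0 : vD.coeff 0 = 0
  · have h1 : vb.coeff 0 = 0 := by
      rw [h0, zero_mul] at R0
      exact (mul_eq_zero.mp R0).resolve_right hz
    rw [h0, h1, zero_mul, zero_mul, add_zero, add_zero] at R1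
    refine ⟨vD.coeff 1 ^ 2, fun h => hv1 (hp.mem_of_pow_mem _ h), 0,
      vD.coeff 1 * d (vb.coeff 1) - vb.coeff 1 * d (vD.coeff 1), ?_⟩
    rw [CLM_prop d hm (zb.coeff 0) (zD.coeff 0) (vb.coeff 1) (vD.coeff 1) R1]
    ring
  · obtain ⟨s, hs, α, β, h1⟩ := hL R d ha hm p hp n (-wb) vb (-wD) vD u (by rw [← hdet]; ring) hv0 hv1 hu
    refine ⟨s, hs, α, β, ?_⟩
    have h2 := CLM_prop d hm (zb.coeff 0) (zD.coeff 0) (vb.coeff 0) (vD.coeff 0) R0
    have h3 : zD.coeff 0 ^ 2 * (vb.coeff 1 * vD.coeff 0 - vb.coeff 0 * vD.coeff 1) =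
        vD.coeff 0 ^ 2 * (zb.coeff 1 * zD.coeff 0 - zb.coeff 0 * zD.coeff 1) := by
      linear_combination (zD.coeff 0 * vD.coeff 0) * R1 - (zD.coeff 0 * vD.coeff 1 + vD.coeff 0 * zD.coeff 1) * R0
    have h4 : vD.coeff 0 ^ 2 ≠ 0 := pow_ne_zero 2 h0
    apply mul_left_cancel₀ h4
    linear_combination (zD.coeff 0 ^ 2) * h1 + s * h2 + α * h3

/-- all coefficients `< n` of a determinant of two elements of `E` vanish -/
theorem CLM_R {k : Type} [Field k] {n : ℕ} {E : Submodule (Polynomial (Sx k)) (Fr k)}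
    (hE : Bundle k n E) {e e' : Fr k} (he : e ∈ E) (he' : e' ∈ E) (m : ℕ) (hm : m < n) :
    (e 0 * e' 1 - e 1 * e' 0).coeff m = 0 := by
  obtain ⟨v, -, w, -, h, u, hh, -, hs, hdet⟩ := hE.loc ⊥ Ideal.isPrime_bot
    ⟨0, by rw [Ideal.mem_bot]; exact MvPolynomial.X_ne_zero 0⟩
  obtain ⟨a, b, h1⟩ := hs e he
  obtain ⟨a', b', h2⟩ := hs e' he'
  have h10 : h * e 0 = a * v 0 + b * w 0 := congrFun h1 0
  have h11 : h * e 1 = a * v 1 + b * w 1 := congrFun h1 1
  have h20 : h * e' 0 = a' * v 0 + b' * w 0 := congrFun h2 0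
  have h21 : h * e' 1 = a' * v 1 + b' * w 1 := congrFun h2 1
  have h3 : h * h * (e 0 * e' 1 - e 1 * e' 0) =
      Polynomial.X ^ n * ((a * b' - b * a') * u) := by
    have h4 : Polynomial.X ^ n * ((a * b' - b * a') * u) = (a * b' - b * a') * (Polynomial.X ^ n * u) := by ring
    rw [h4, ← hdet]
    have : h * h * (e 0 * e' 1 - e 1 * e' 0) =
        (h * e 0) * (h * e' 1) - (h * e 1) * (h * e' 0) := by ring
    rw [this, h10, h11, h20, h21]
    ring
  rw [Ideal.mem_bot] at hh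
  have hX : ¬ (Polynomial.X : Polynomial (Sx k)) ∣ h * h := by
    rw [Polynomial.X_dvd_iff, Polynomial.mul_coeff_zero]
    exact mul_ne_zero hh hh
  have h5 : (Polynomial.X : Polynomial (Sx k)) ^ n ∣ e 0 * e' 1 - e 1 * e' 0 :=
    Polynomial.prime_X.pow_dvd_of_dvd_mul_left n hX ⟨_, h3⟩
  exact (Polynomial.X_pow_dvd_iff.mp h5) m hm

theorem CLM_half (hL : Stmt_LOC) {k : Type} [Field k] {n : ℕ} {E : Submodule (Polynomial (Sx k)) (Fr k)}
    (hn : 2 ≤ n) (hE : Bundle k n E) {z : Fr k} (hz : z ∈ E) (hz0 : (z 0).coeff 0 ≠ 0) (hz1 : (z 1).coeff 0 ≠ 0)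
    {p : Ideal (Sx k)} (hp : p.IsPrime) (hall : ∀ e ∈ E, ∀ a, (e a).coeff 0 ∈ p) (i : Fin 4)
    (v w : Fr k) (hv : v ∈ E) (u : Polynomial (Sx k)) (hu : u.coeff 0 ∉ p)
    (hdet : v 0 * w 1 - v 1 * w 0 = Polynomial.X ^ n * u) (a : Fin 2) (hva : (v a).coeff 1 ∉ p) :
    ∃ s : Sx k, s ∉ p ∧ s * Pd i z ∈ Jd z := by
  have hadd : ∀ a b : Sx k, pderiv i (a + b) = pderiv i a + pderiv i b := fun a b => map_add _ a b
  have hmul : ∀ a b : Sx k, pderiv i (a * b) = a * pderiv i b + b * pderiv i a := by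
    intro a b
    rw [Derivation.leibniz, smul_eq_mul, smul_eq_mul]
  have r0 := CLM_R hE hv hz 0 (by omega)
  have r1 := CLM_R hE hv hz 1 (by omega)
  rw [Polynomial.coeff_sub, Polynomial.mul_coeff_zero, Polynomial.mul_coeff_zero] at r0
  rw [Polynomial.coeff_sub, Polynomial.mul_coeff_one, Polynomial.mul_coeff_one] at r1
  have hQ : Qd z ∈ Jd z := Ideal.subset_span (by simp)
  have hD : (z 1).coeff 0 ^ 2 ∈ Jd z := Ideal.subset_span (by simp)
  have hb : (z 0).coeff 0 ^ 2 ∈ Jd z := Ideal.subset_span (by simp)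
  fin_cases a
  · obtain ⟨s, hs, α, β, h⟩ := CLM_core hL (fun x => pderiv i x) hadd hmul p hp n (v 1) (v 0) (w 1) (w 0) (z 1) (z 0) (-u)
      (by linear_combination -hdet) (by rw [Polynomial.coeff_neg, neg_mem_iff]; exact hu) (hall v hv 0) hva hz0
      (by linear_combination -r0) (by linear_combination -r1)
    refine ⟨s, hs, ?_⟩
    have h1 : s * Pd i z = α * Qd z - β * (z 0).coeff 0 ^ 2 := by
      rw [Pd, Qd]
      linear_combination -h
    rw [h1]
    exact Ideal.sub_mem _ (Ideal.mul_mem_left _ _ hQ) (Ideal.mul_mem_left _ _ hb)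
  · obtain ⟨s, hs, α, β, h⟩ := CLM_core hL (fun x => pderiv i x) hadd hmul p hp n (v 0) (v 1) (w 0) (w 1) (z 0) (z 1) u
      hdet hu (hall v hv 1) hva hz1 (by linear_combination r0) (by linear_combination r1)
    refine ⟨s, hs, ?_⟩
    have h1 : s * Pd i z = α * Qd z + β * (z 1).coeff 0 ^ 2 := by
      rw [Pd, Qd]
      linear_combination h
    rw [h1]
    exact Ideal.add_mem _ (Ideal.mul_mem_left _ _ hQ) (Ideal.mul_mem_left _ _ hD)

theorem clm (hL : Stmt_LOC) : Stmt_CLM := by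
  intro k _ n E hn hE hT z hz hz0 hz1 p hp hpi i
  have hmul : ∀ a b : Sx k, pderiv i (a * b) = a * pderiv i b + b * pderiv i a := by
    intro a b
    rw [Derivation.leibniz, smul_eq_mul, smul_eq_mul]
  by_cases hall : ∀ e ∈ E, ∀ a, (e a).coeff 0 ∈ p
  · obtain ⟨v, hv, w, hw, h, u, hh, hu, hs, hdet⟩ := hE.loc p hp hpi
    have hn2 : 2 ≤ n := by
      by_contra hlt
      have hn1 : n = 1 := by omega
      subst hn1
      apply hu
      have h1 := congrArg (fun P => Polynomial.coeff P 1) hdet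
      simp only [Polynomial.coeff_sub, pow_one, Polynomial.mul_coeff_one, Polynomial.coeff_X_zero, Polynomial.coeff_X_one,
        zero_mul, one_mul, zero_add] at h1
      rw [← h1]
      exact Ideal.sub_mem _ (Ideal.add_mem _ (Ideal.mul_mem_right _ _ (hall v hv 0)) (Ideal.mul_mem_left _ _ (hall w hw 1)))
        (Ideal.add_mem _ (Ideal.mul_mem_right _ _ (hall v hv 1)) (Ideal.mul_mem_left _ _ (hall w hw 0)))
    obtain ⟨e, he, a, hea⟩ := hT p hp hpi
    have hea1 : (e a).coeff 1 ∉ p := hea.resolve_left (fun hc => hc (hall e he a))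
    obtain ⟨α, β, h1⟩ := hs e he
    have h2 : h * e a = α * v a + β * w a := congrFun h1 a
    have h3 := congrArg (fun P => Polynomial.coeff P 1) h2
    simp only [Polynomial.coeff_add, Polynomial.mul_coeff_one] at h3
    have h4 : (v a).coeff 1 ∉ p ∨ (w a).coeff 1 ∉ p := by
      by_contra hc
      push Not at hc
      have h5 : h.coeff 0 * (e a).coeff 1 ∈ p := by
        have h6 : h.coeff 0 * (e a).coeff 1 = α.coeff 0 * (v a).coeff 1 + α.coeff 1 * (v a).coeff 0 +
          (β.coeff 0 * (w a).coeff 1 + β.coeff 1 * (w a).coeff 0) - h.coeff 1 * (e a).coeff 0 := by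
          rw [← h3]; ring
        rw [h6]
        exact Ideal.sub_mem _ (Ideal.add_mem _
          (Ideal.add_mem _ (Ideal.mul_mem_left _ _ hc.1) (Ideal.mul_mem_left _ _ (hall v hv a)))
          (Ideal.add_mem _ (Ideal.mul_mem_left _ _ hc.2) (Ideal.mul_mem_left _ _ (hall w hw a))))
          (Ideal.mul_mem_left _ _ (hall e he a))
      rcases hp.mem_or_mem h5 with h7 | h7
      · exact hh h7
      · exact hea1 h7
    rcases h4 with h4 | h4
    · exact CLM_half hL hn2 hE hz hz0 hz1 hp hall i v w hv u hu hdet a h4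
    · exact CLM_half hL hn2 hE hz hz0 hz1 hp hall i w v hw (-u) (by rw [Polynomial.coeff_neg, neg_mem_iff]; exact hu)
        (by linear_combination -hdet) a h4
  · push Not at hall
    obtain ⟨e, he, a, hea⟩ := hall
    have r0 := CLM_R hE he hz 0 (by omega)
    rw [Polynomial.coeff_sub, Polynomial.mul_coeff_zero, Polynomial.mul_coeff_zero] at r0
    have hD : (z 1).coeff 0 ^ 2 ∈ Jd z := Ideal.subset_span (by simp)
    have hb : (z 0).coeff 0 ^ 2 ∈ Jd z := Ideal.subset_span (by simp)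
    refine ⟨(e a).coeff 0 ^ 2, fun h => hea (hp.mem_of_pow_mem _ h), ?_⟩
    fin_cases a
    · have h1 := CLM_prop (fun x => pderiv i x) hmul ((z 1).coeff 0) ((z 0).coeff 0) ((e 1).coeff 0) ((e 0).coeff 0)
        (by linear_combination -r0)
      have h2 : (e 0).coeff 0 ^ 2 * Pd i z = (z 0).coeff 0 ^ 2 * Pd i e := by
        rw [Pd, Pd]
        linear_combination -h1
      change (e 0).coeff 0 ^ 2 * Pd i z ∈ Jd z
      rw [h2]
      exact Ideal.mul_mem_right _ _ hb
    · have h1 := CLM_prop (fun x => pderiv i x) hmul ((z 0).coeff 0) ((z 1).coeff 0) ((e 0).coeff 0) ((e 1).coeff 0)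
        (by linear_combination r0)
      have h2 : (e 1).coeff 0 ^ 2 * Pd i z = (z 1).coeff 0 ^ 2 * Pd i e := by
        rw [Pd, Pd]
        linear_combination h1
      change (e 1).coeff 0 ^ 2 * Pd i z ∈ Jd z
      rw [h2]
      exact Ideal.mul_mem_right _ _ hD

end Pool.LTO
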