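import Pool.Agent.Work.MP_03d391_lto.Interface

/-!
# Block CON of MP_03d391_ag (lto): constants (typed by helper99)

Instead of the unique factorization: for a monomial order, the coefficient of `x^(μ + ν)` in
`D x_i ∂_i b = b x_i ∂_i D`, where `μ`, `ν` are the leading exponents of `b` and `D`, gives `μ_i = ν_i`
(characteristic `0`). Apply this to `b` and to `b - λ D` with the leading term cancelled.
-/

set_option autoImplicit false

noncomputable section

namespace Pool.LTO

open MvPolynomial

lemma CON_coeff {k : Type} [Field k] (i : Fin 4) (f : Sx k) (ν : Fin 4 →₀ ℕ) :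
    (X i * pderiv i f).coeff ν = (ν i : k) * f.coeff ν := by
  classical
  rw [coeff_X_mul']
  split_ifs with h
  · have h1 : ν i ≠ 0 := Finsupp.mem_support_iff.1 h
    have h2 : ν - Finsupp.single i 1 + Finsupp.single i 1 = ν := by
      apply tsub_add_cancel_of_le
      rw [Finsupp.single_le_iff]
      omega
    rw [coeff_pderiv, h2]
    have h3 : (ν - Finsupp.single i 1 : Fin 4 →₀ ℕ) i + 1 = ν i := by
      rw [Finsupp.tsub_apply, Finsupp.single_eq_same]
      omega
    have h4 : (((ν - Finsupp.single i 1 : Fin 4 →₀ ℕ) i : ℕ) : k) + 1 = (ν i : k) := by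
      rw [← h3]
      push_cast
      rfl
    rw [h4, mul_comm]
  · have h1 : ν i = 0 := by
      by_contra h2
      exact h (Finsupp.mem_support_iff.2 h2)
    rw [h1]
    simp

lemma CON_deg {k : Type} [Field k] [CharZero k] (b D : Sx k) (hb : b ≠ 0) (hD : D ≠ 0)
    (h : ∀ i, D * pderiv i b = b * pderiv i D) :
    (MonomialOrder.lex (σ := Fin 4)).degree b = (MonomialOrder.lex (σ := Fin 4)).degree D := by
  classical
  set m := MonomialOrder.lex (σ := Fin 4) with hm
  have hle : ∀ (i : Fin 4) (f : Sx k), m.toSyn (m.degree (X i * pderiv i f)) ≤ m.toSyn (m.degree f) := by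
    intro i f
    rw [m.degree_le_iff]
    intro c hc
    apply m.le_degree
    rw [mem_support_iff] at hc ⊢
    intro h0
    apply hc
    rw [CON_coeff, h0, mul_zero]
  ext i
  have h1 : D * (X i * pderiv i b) = b * (X i * pderiv i D) := by
    have := h i
    calc D * (X i * pderiv i b) = X i * (D * pderiv i b) := by ring
      _ = X i * (b * pderiv i D) := by rw [this]
      _ = b * (X i * pderiv i D) := by ring
  have h2 : (D * (X i * pderiv i b)).coeff (m.degree D + m.degree b) =
      (b * (X i * pderiv i D)).coeff (m.degree D + m.degree b) := by rw [h1]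
  rw [m.coeff_mul_of_add_of_degree_le le_rfl (hle i b), add_comm (m.degree D),
    m.coeff_mul_of_add_of_degree_le le_rfl (hle i D), CON_coeff, CON_coeff] at h2
  have hb' : b.coeff (m.degree b) ≠ 0 := m.coeff_degree_ne_zero_iff.2 hb
  have hD' : D.coeff (m.degree D) ≠ 0 := m.coeff_degree_ne_zero_iff.2 hD
  have h3 : (b.coeff (m.degree b) * D.coeff (m.degree D)) * ((m.degree b i : k)) =
      (b.coeff (m.degree b) * D.coeff (m.degree D)) * ((m.degree D i : k)) := by
    linear_combination h2
  have h4 := mul_left_cancel₀ (mul_ne_zero hb' hD') h3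
  exact_mod_cast h4

theorem p_CON : Stmt_CON := by
  classical
  intro k _ _ b D h
  by_cases hD : D = 0
  · refine ⟨![1, 0], b, ?_, ?_, ?_⟩
    · intro h0
      have := congrFun h0 0
      simp at this
    · simp
    · simp [hD]
  by_cases hb : b = 0
  · refine ⟨![0, 1], D, ?_, ?_, ?_⟩
    · intro h0
      have := congrFun h0 1
      simp at this
    · simp [hb]
    · simp
  set m := MonomialOrder.lex (σ := Fin 4) with hm
  have hdeg := CON_deg b D hb hD h
  rw [← hm] at hdeg
  set l : k := b.coeff (m.degree D) / D.coeff (m.degree D) with hl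
  have hD' : D.coeff (m.degree D) ≠ 0 := m.coeff_degree_ne_zero_iff.2 hD
  have hz : b - C l * D = 0 := by
    by_contra hne
    have h1 : ∀ i, D * pderiv i (b - C l * D) = (b - C l * D) * pderiv i D := by
      intro i
      rw [map_sub, pderiv_C_mul]
      have := h i
      linear_combination this
    have h2 := CON_deg _ D hne hD h1
    rw [← hm] at h2
    have h3 : (b - C l * D).coeff (m.degree (b - C l * D)) ≠ 0 := m.coeff_degree_ne_zero_iff.2 hne
    rw [h2, coeff_sub, coeff_C_mul, hl, div_mul_cancel₀ _ hD', sub_self] at h3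
    exact h3 rfl
  refine ⟨![l, 1], D, ?_, ?_, ?_⟩
  · intro h0
    have := congrFun h0 1
    simp at this
  · simpa using sub_eq_zero.1 hz
  · simp

end Pool.LTO
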