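import Pool.Agent.Work.MP_03d391_lto.Interface

/-! Block DIR: the direction is constant. -/

set_option autoImplicit false

noncomputable section

namespace Pool.LTO

open MvPolynomial

/-- (R) the constant coefficient of the determinant vanishes -/
theorem DIR_det {k : Type} [Field k] {n : ℕ} {E : Submodule (Polynomial (Sx k)) (Fr k)}
    (hn : 1 ≤ n) (hE : Bundle k n E) {e e' : Fr k} (he : e ∈ E) (he' : e' ∈ E) :
    (e 0).coeff 0 * (e' 1).coeff 0 = (e 1).coeff 0 * (e' 0).coeff 0 := by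
  obtain ⟨v, -, w, -, h, u, hh, -, hs, hdet⟩ := hE.loc ⊥ Ideal.isPrime_bot
    ⟨0, by rw [Ideal.mem_bot]; exact MvPolynomial.X_ne_zero 0⟩
  obtain ⟨a, b, h1⟩ := hs e he
  obtain ⟨a', b', h2⟩ := hs e' he'
  have h10 : h * e 0 = a * v 0 + b * w 0 := congrFun h1 0
  have h11 : h * e 1 = a * v 1 + b * w 1 := congrFun h1 1
  have h20 : h * e' 0 = a' * v 0 + b' * w 0 := congrFun h2 0
  have h21 : h * e' 1 = a' * v 1 + b' * w 1 := congrFun h2 1
  have h3 : h * h * (e 0 * e' 1 - e 1 * e' 0) =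
      (a * b' - b * a') * (Polynomial.X ^ n * u) := by
    rw [← hdet]
    have : h * h * (e 0 * e' 1 - e 1 * e' 0) =
        (h * e 0) * (h * e' 1) - (h * e 1) * (h * e' 0) := by ring
    rw [this, h10, h11, h20, h21]
    ring
  have h4 := congrArg (fun P => Polynomial.coeff P 0) h3
  simp only [Polynomial.mul_coeff_zero, Polynomial.coeff_sub, Polynomial.coeff_X_pow] at h4
  have hn0 : (0 : ℕ) ≠ n := by omega
  rw [if_neg hn0, zero_mul, mul_zero] at h4
  rw [Ideal.mem_bot] at hh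
  have h5 := (mul_eq_zero.mp h4).resolve_left (mul_ne_zero hh hh)
  exact sub_eq_zero.mp h5

theorem DIR_prop {k : Type} [Field k] {c : Fin 2 → k} (hc : c ≠ 0) {e0 e1 : Sx k}
    (h : e0 * C (c 1) = e1 * C (c 0)) : ∃ g : Sx k, e0 = C (c 0) * g ∧ e1 = C (c 1) * g := by
  by_cases h0 : c 0 = 0
  · have h1 : c 1 ≠ 0 := by
      intro h1
      apply hc
      funext a
      fin_cases a
      · exact h0
      · exact h1
    rw [h0, C_0, mul_zero] at h
    have h2 : (C (c 1) : Sx k) ≠ 0 := by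
      rw [Ne, C_eq_zero]
      exact h1
    have h3 : e0 = 0 := (mul_eq_zero.mp h).resolve_right h2
    refine ⟨C ((c 1)⁻¹) * e1, ?_, ?_⟩
    · rw [h3, h0, C_0, zero_mul]
    · rw [← mul_assoc, ← C_mul, mul_inv_cancel₀ h1, C_1, one_mul]
  · refine ⟨C ((c 0)⁻¹) * e0, ?_, ?_⟩
    · rw [← mul_assoc, ← C_mul, mul_inv_cancel₀ h0, C_1, one_mul]
    · have h4 : C (c 1) * (C ((c 0)⁻¹) * e0) = C ((c 0)⁻¹) * (e0 * C (c 1)) := by ring
      rw [h4, h, mul_comm e1, ← mul_assoc, ← C_mul, inv_mul_cancel₀ h0, C_1, one_mul]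

theorem DIR_const {k : Type} [Field k] {b : Sx k} (h : b.IsHomogeneous 0) (i : Fin 4) :
    pderiv i b = 0 := by
  have h1 : b.totalDegree = 0 := Nat.le_zero.mp h.totalDegree_le
  rw [totalDegree_eq_zero_iff_eq_C.mp h1, pderiv_C]

theorem DIR_Pd (hCLM : Stmt_CLM) (hLA : Stmt_LA) {k : Type} [Field k] {n m : ℕ}
    {E : Submodule (Polynomial (Sx k)) (Fr k)} (hn : 1 ≤ n) (hE : Bundle k n E)
    (hT : TypeLeOne k E) {z : Fr k} (hz : z ∈ E) (hh : ∀ a j, ((z a).coeff j).IsHomogeneous m)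
    (h0 : (z 0).coeff 0 ≠ 0) (h1 : (z 1).coeff 0 ≠ 0) (i : Fin 4) : Pd i z = 0 := by
  rcases Nat.eq_zero_or_pos m with hm | hm
  · subst hm
    unfold Pd
    rw [DIR_const (hh 0 0) i, DIR_const (hh 1 0) i, mul_zero, mul_zero, sub_zero]
  · have e1 : m + (m - 1) = 2 * m - 1 := by omega
    have e2 : m + m = 2 * m := by ring
    have hf : (Pd i z).IsHomogeneous (2 * m - 1) := by
      unfold Pd
      rw [← e1]
      exact ((hh 1 0).mul (hh 0 0).pderiv).sub ((hh 0 0).mul (hh 1 0).pderiv)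
    have hq : (Qd z).IsHomogeneous (2 * m) := by
      unfold Qd
      rw [← e2]
      exact ((hh 0 1).mul (hh 1 0)).sub ((hh 0 0).mul (hh 1 1))
    refine hLA k m (2 * m - 1) ((z 0).coeff 0) ((z 1).coeff 0) (Qd z) (Pd i z) (hh 0 0) (hh 1 0)
      hq hf (by omega) h1 ?_
    intro j
    obtain ⟨I, hI⟩ : ∃ I : Ideal (Sx k), ∀ s, s ∈ I ↔ s * Pd i z ∈ Jd z :=
      ⟨Submodule.comap (LinearMap.toSpanSingleton (Sx k) (Sx k) (Pd i z)) (Jd z), fun s => by
        rw [Submodule.mem_comap, LinearMap.toSpanSingleton_apply, smul_eq_mul]⟩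
    have hrad : (X j : Sx k) ∈ I.radical := by
      rw [Ideal.radical_eq_sInf, Submodule.mem_sInf]
      intro p hp
      obtain ⟨hIp, hpp⟩ := hp
      by_contra hj
      obtain ⟨s, hs, hs2⟩ := hCLM k n E hn hE hT z hz h0 h1 p hpp ⟨j, hj⟩ i
      exact hs (hIp ((hI s).mpr hs2))
    obtain ⟨N, hN⟩ := Ideal.mem_radical_iff.mp hrad
    exact ⟨N, (hI _).mp hN⟩

theorem p_DIR (hCLM : Stmt_CLM) (hLA : Stmt_LA) (hCON : Stmt_CON) : Stmt_DIR := by
  intro k _ _ n E hn hE hT
  by_cases hall : ∀ e ∈ E, ∀ a, (e a).coeff 0 = 0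
  · refine ⟨fun _ => 1, ?_, ?_⟩
    · intro h
      exact one_ne_zero (congrFun h 0)
    · intro e he
      exact ⟨0, fun a => by rw [hall e he a, mul_zero]⟩
  · push Not at hall
    obtain ⟨e, he, a, hea⟩ := hall
    -- a homogeneous vector
    obtain ⟨m, hm⟩ : ∃ m, homogeneousComponent m ((e a).coeff 0) ≠ 0 := by
      by_contra hcon
      push Not at hcon
      apply hea
      rw [← sum_homogeneousComponent ((e a).coeff 0)]
      exact Finset.sum_eq_zero (fun m _ => hcon m)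
    obtain ⟨z, hz, hze⟩ := hE.hom e he m
    have hh : ∀ a j, ((z a).coeff j).IsHomogeneous m := by
      intro a j
      rw [hze a j]
      exact homogeneousComponent_isHomogeneous m _
    have hza : (z a).coeff 0 ≠ 0 := by
      rw [hze a 0]
      exact hm
    obtain ⟨c, g, hc, hb, hD⟩ : ∃ (c : Fin 2 → k) (g : Sx k), c ≠ 0 ∧
        (z 0).coeff 0 = C (c 0) * g ∧ (z 1).coeff 0 = C (c 1) * g := by
      by_cases h0 : (z 0).coeff 0 = 0
      · refine ⟨![0, 1], (z 1).coeff 0, ?_, ?_, ?_⟩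
        · intro h
          have := congrFun h 1
          simp at this
        · rw [h0]
          simp
        · simp
      · by_cases h1 : (z 1).coeff 0 = 0
        · refine ⟨![1, 0], (z 0).coeff 0, ?_, ?_, ?_⟩
          · intro h
            have := congrFun h 0
            simp at this
          · simp
          · rw [h1]
            simp
        · refine hCON k _ _ (fun i => ?_)
          have h2 := DIR_Pd hCLM hLA hn hE hT hz hh h0 h1 i
          unfold Pd at h2
          exact sub_eq_zero.mp h2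
    have hg : g ≠ 0 := by
      rintro rfl
      apply hza
      fin_cases a
      · exact hb.trans (mul_zero _)
      · exact hD.trans (mul_zero _)
    refine ⟨c, hc, fun x hx => ?_⟩
    have h3 := DIR_det hn hE hx hz
    rw [hb, hD] at h3
    have h4 : (x 0).coeff 0 * C (c 1) = (x 1).coeff 0 * C (c 0) := by
      apply mul_right_cancel₀ hg
      rw [mul_assoc, mul_assoc]
      exact h3
    obtain ⟨g', h5, h6⟩ := DIR_prop hc h4
    refine ⟨g', fun a => ?_⟩
    fin_cases a
    · exact h5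
    · exact h6

end Pool.LTO
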