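import Pool.Agent.Work.MP_03d391_lto.Interface

set_option autoImplicit false

noncomputable section

namespace Pool.LTO

open MvPolynomial Cardinal IntermediateField IntermediateField.algebraAdjoinAdjoin

theorem IND_trdegK (k : Type) [Field k] : Algebra.trdeg k (FractionRing (Sx k)) = 4 := by
  have h1 : Algebra.IsAlgebraic (Sx k) (FractionRing (Sx k)) := IsLocalization.isAlgebraic _ (nonZeroDivisors (Sx k))
  rw [← _root_.trdeg_add_eq k (Sx k), _root_.trdeg_eq_zero_iff.2 h1, add_zero, MvPolynomial.trdeg_of_isDomain]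
  simp

theorem IND_trdegK' (k : Type) [Field k] (z w : FractionRing (Sx k)) :
    Algebra.trdeg k (IntermediateField.adjoin k {z, w}) ≤ 2 := by
  have h1 : Algebra.IsAlgebraic (Algebra.adjoin k {z, w}) (IntermediateField.adjoin k {z, w}) := inferInstance
  rw [← _root_.trdeg_add_eq k (Algebra.adjoin k {z, w}), _root_.trdeg_eq_zero_iff.2 h1, add_zero]
  have hr : ∀ y : Fin 2, (![z, w] : Fin 2 → FractionRing (Sx k)) y ∈ Algebra.adjoin k ({z, w} : Set (FractionRing (Sx k))) := by
    intro y
    fin_cases y
    · exact Algebra.subset_adjoin (by simp)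
    · exact Algebra.subset_adjoin (by simp)
  let g : Fin 2 → Algebra.adjoin k ({z, w} : Set (FractionRing (Sx k))) := fun y => ⟨_, hr y⟩
  let f : MvPolynomial (Fin 2) k →ₐ[k] Algebra.adjoin k ({z, w} : Set (FractionRing (Sx k))) := aeval g
  have hf : Function.Surjective f := by
    have h2 : f.range = ⊤ := by
      rw [← Algebra.adjoin_range_eq_range_aeval]
      have h3 : (Set.range g) = ((↑) : Algebra.adjoin k ({z, w} : Set (FractionRing (Sx k))) → FractionRing (Sx k)) ⁻¹' {z, w} := by
        ext ⟨y, hy⟩
        constructor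
        · rintro ⟨i, hi⟩
          have := congrArg Subtype.val hi
          fin_cases i
          · left; exact this.symm
          · right; exact this.symm
        · rintro (h | h)
          · exact ⟨0, Subtype.ext h.symm⟩
          · exact ⟨1, Subtype.ext h.symm⟩
      rw [h3]
      exact Algebra.adjoin_adjoin_coe_preimage
    exact (AlgHom.range_eq_top f).mp h2
  have h3 := _root_.lift_trdeg_le_of_surjective f hf
  rw [MvPolynomial.trdeg_of_isDomain] at h3
  simpa using h3

theorem IND_alg (k : Type) [Field k] (L : IntermediateField k (FractionRing (Sx k))) :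
    Algebra.IsAlgebraic (Algebra.adjoin L (Set.range fun i : Fin 4 => algebraMap (Sx k) (FractionRing (Sx k)) (X i)))
      (FractionRing (Sx k)) := by
  have hmem : ∀ s : Sx k, algebraMap (Sx k) (FractionRing (Sx k)) s ∈
      Algebra.adjoin L (Set.range fun i : Fin 4 => algebraMap (Sx k) (FractionRing (Sx k)) (X i)) := by
    intro s
    induction s using MvPolynomial.induction_on with
    | C a =>
      have h1 : algebraMap (Sx k) (FractionRing (Sx k)) (C a) = algebraMap L (FractionRing (Sx k)) (algebraMap k L a) := by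
        rw [← IsScalarTower.algebraMap_apply k L, ← MvPolynomial.algebraMap_eq, ← IsScalarTower.algebraMap_apply k (Sx k)]
      rw [h1]
      exact Subalgebra.algebraMap_mem _ _
    | add p q hp hq =>
      rw [map_add]
      exact add_mem hp hq
    | mul_X p i hp =>
      rw [map_mul]
      exact mul_mem hp (Algebra.subset_adjoin ⟨i, rfl⟩)
  constructor
  intro y
  obtain ⟨a, b, hb, rfl⟩ := IsFractionRing.div_surjective (A := Sx k) y
  rw [div_eq_mul_inv]
  exact (isAlgebraic_algebraMap (A := FractionRing (Sx k)) (⟨_, hmem a⟩ : Algebra.adjoin L _)).mul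
    (isAlgebraic_algebraMap (A := FractionRing (Sx k)) (⟨_, hmem b⟩ : Algebra.adjoin L _)).inv

theorem p_IND : Stmt_IND := by
  intro k _ z w
  have halg := IND_alg k (IntermediateField.adjoin k {z, w})
  obtain ⟨T, hT, hb⟩ := exists_isTranscendenceBasis_subset (R := IntermediateField.adjoin k {z, w})
    (Set.range fun i : Fin 4 => algebraMap (Sx k) (FractionRing (Sx k)) (X i))
  have h1 : Algebra.trdeg k (IntermediateField.adjoin k {z, w}) +
      Algebra.trdeg (IntermediateField.adjoin k {z, w}) (FractionRing (Sx k)) = 4 := by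
    rw [_root_.trdeg_add_eq, IND_trdegK]
  have h2 := IND_trdegK' k z w
  have h3 : (2 : Cardinal) ≤ #T := by
    rw [hb.cardinalMk_eq_trdeg]
    by_contra hcon
    push Not at hcon
    have h4 : Algebra.trdeg (IntermediateField.adjoin k {z, w}) (FractionRing (Sx k)) ≤ 1 := by
      have h20 : Order.succ (1 : Cardinal) = 2 := by
        have := Cardinal.nat_succ 1
        simpa using this.symm
      rw [← h20] at hcon
      exact Order.lt_succ_iff.mp hcon
    have h5 := add_le_add h2 h4
    rw [h1] at h5
    have h6 : (4 : Cardinal.{0}) ≤ 3 := h5.trans (by norm_num)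
    have h7 : ((4 : ℕ) : Cardinal.{0}) ≤ ((3 : ℕ) : Cardinal.{0}) := by exact_mod_cast h6
    have h8 := Nat.cast_le.mp h7
    omega
  rw [Cardinal.two_le_iff] at h3
  obtain ⟨⟨a, ha⟩, ⟨b, hb'⟩, hab⟩ := h3
  obtain ⟨i, hi⟩ := hT ha
  obtain ⟨j, hj⟩ := hT hb'
  refine ⟨i, j, ?_, ?_⟩
  · rintro rfl
    exact hab (Subtype.ext (hi.symm.trans hj))
  · have h9 := hb.1.comp (![⟨a, ha⟩, ⟨b, hb'⟩] : Fin 2 → T) (by
      intro x y hxy
      fin_cases x <;> fin_cases y
      · rfl
      · exact absurd hxy hab
      · exact absurd hxy.symm hab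
      · rfl)
    have h10 : ((↑) : T → FractionRing (Sx k)) ∘ (![⟨a, ha⟩, ⟨b, hb'⟩] : Fin 2 → T) =
        ![algebraMap (Sx k) (FractionRing (Sx k)) (X i), algebraMap (Sx k) (FractionRing (Sx k)) (X j)] := by
      funext x
      fin_cases x
      · exact hi.symm
      · exact hj.symm
    rw [h10] at h9
    exact h9

end Pool.LTO
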