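import Pool.Agent.Work.MP_03d391_lto.Interface

/-! # Block LOC of MP_03d391_ag (lto): the local computation (typed by helper58) -/

set_option autoImplicit false

noncomputable section

namespace Pool.LTO

theorem p_LOC (hUFD : Stmt_UFD) (hNWT : Stmt_NWT) : Stmt_LOC := by
  intro R _ _ _ d hadd hmul p hp n a b c D u hdet hD0 hD1 hu
  obtain ⟨b', s, κ, L, hs, hdvd, hA⟩ := hNWT R p hp n a b c D u hdet hD0 hD1 hu
  obtain ⟨x, hx⟩ : ∃ x, x = D.coeff 0 := ⟨_, rfl⟩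
  obtain ⟨δ, hδ⟩ : ∃ δ, δ = D.coeff 1 := ⟨_, rfl⟩
  obtain ⟨b0, hb0⟩ : ∃ b0, b0 = b.coeff 0 := ⟨_, rfl⟩
  obtain ⟨b1, hb1⟩ : ∃ b1, b1 = b.coeff 1 := ⟨_, rfl⟩
  rw [← hx, ← hδ, ← hb0, ← hb1] at hA
  rw [← hx] at hdvd
  rw [← hδ] at hD1
  rw [← hx, ← hδ, ← hb0, ← hb1]
  -- rules for `d`
  have hd0 : d 0 = 0 := by
    have h := hadd 0 0
    rw [add_zero] at h
    linear_combination -h
  have hneg : ∀ y, d (-y) = -d y := by
    intro y
    have h := hadd y (-y)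
    rw [add_neg_cancel, hd0] at h
    linear_combination -h
  have hsub : ∀ y z, d (y - z) = d y - d z := by
    intro y z
    rw [sub_eq_add_neg, hadd, hneg]
    ring
  -- the divisibility
  have hdvd' : b' ∣ (s * x) ^ (n + 1) := by
    refine hdvd.trans ⟨s ^ n * x, ?_⟩
    ring
  obtain ⟨ε, hE⟩ := hUFD R d hmul b' (s * x) (n + 1) hdvd'
  -- the derivatives
  obtain ⟨q, hq⟩ : ∃ q, q = b1 * x - b0 * δ := ⟨_, rfl⟩
  have hC : d q = b1 * d x + x * d b1 - (b0 * d δ + δ * d b0) := by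
    rw [hq, hsub, hmul, hmul]
  rw [← hq] at hA
  have hB : δ ^ L * d q + q * d (δ ^ L) =
      -(δ * d b' + b' * d δ) + (x ^ 2 * d κ + κ * (x * d x + x * d x)) := by
    have h1 := congrArg d hA
    rw [hmul, hadd, hneg, hmul, hmul, pow_two x, hmul x x] at h1
    rw [h1, pow_two x]
  refine ⟨s * δ ^ (L + 2), ?_,
    s * δ ^ L * δ * d x + s * δ * x * d (δ ^ L) - δ * ε * δ ^ L,
    s * δ ^ L * δ * d b1 - s * δ * x * d κ - 2 * (s * δ * κ * d x) + δ * ε * κ + s * x * d δ * κ -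
      s * δ ^ L * d δ * b1, ?_⟩
  · intro h
    rcases hp.mem_or_mem h with h1 | h1
    · exact hs h1
    · exact hD1 (hp.mem_of_pow_mem _ h1)
  · rw [← hq]
    have hq' : q - (b1 * x - b0 * δ) = 0 := by rw [hq]; ring
    linear_combination (s * δ ^ L * δ * x) * hC - (s * δ * x) * hB + δ ^ 2 * hE +
      (δ * ε + s * x * d δ) * hA - (s * δ ^ L * δ * d x + s * δ ^ L * x * d δ) * hq'

end Pool.LTO
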