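import Pool.Agent.Work.MP_03d391_lto.Interface

/-!
Block NWT: Newton iteration away from the point, typed by helper23 from the hint of helper64.
-/

set_option autoImplicit false

noncomputable section

namespace Pool.LTO

open Polynomial

theorem NWT_two {S : Type} [CommRing S] (f : Polynomial S) (r : S) :
    f.eval r = f.coeff 0 + f.coeff 1 * r + r ^ 2 * (f.divX.divX).eval r := by
  have h1 : f.eval r = f.divX.eval r * r + f.coeff 0 := by
    conv_lhs => rw [← divX_mul_X_add f]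
    simp
  have h2 : f.divX.eval r = f.divX.divX.eval r * r + f.coeff 1 := by
    conv_lhs => rw [← divX_mul_X_add f.divX]
    simp
  rw [h1, h2]
  ring

theorem NWT_one {S : Type} [CommRing S] (f : Polynomial S) (r : S) :
    f.eval r = f.coeff 0 + r * (f.divX).eval r := by
  conv_lhs => rw [← divX_mul_X_add f]
  simp
  ring

theorem NWT_newton {S : Type} [CommRing S] (D : Polynomial S) (e : S) (he : D.coeff 1 * e = 1) (j : ℕ) :
    ∃ ρ ρ' κ : S, D.coeff 1 * ρ = -1 + D.coeff 0 * ρ' ∧ D.eval (D.coeff 0 * ρ) = D.coeff 0 ^ (j + 2) * κ := by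
  induction j with
  | zero =>
    refine ⟨-e, 0, e ^ 2 * (D.divX.divX).eval (D.coeff 0 * (-e)), ?_, ?_⟩
    · linear_combination -he
    · rw [NWT_two]
      linear_combination (-D.coeff 0) * he
  | succ j ih =>
    obtain ⟨ρ, ρ', κ, h1, h2⟩ := ih
    obtain ⟨w, hw⟩ := Polynomial.sub_dvd_eval_sub (D.coeff 0 * (ρ - e * D.coeff 0 ^ (j + 1) * κ)) (D.coeff 0 * ρ) D.divX.divX
    refine ⟨ρ - e * D.coeff 0 ^ (j + 1) * κ, ρ' - D.coeff 0 ^ j * κ,
      -(e * κ) * ((ρ + (ρ - e * D.coeff 0 ^ (j + 1) * κ)) * (D.divX.divX).eval (D.coeff 0 * (ρ - e * D.coeff 0 ^ (j + 1) * κ)) + D.coeff 0 * ρ ^ 2 * w), ?_, ?_⟩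
    · have : D.coeff 0 ^ (j + 1) = D.coeff 0 ^ j * D.coeff 0 := pow_succ _ _
      rw [this]
      linear_combination h1 - (D.coeff 0 ^ j * D.coeff 0 * κ) * he
    · rw [NWT_two] at h2 ⊢
      generalize (D.divX.divX).eval (D.coeff 0 * (ρ - e * D.coeff 0 ^ (j + 1) * κ)) = E1 at *
      generalize (D.divX.divX).eval (D.coeff 0 * ρ) = E0 at *
      generalize D.coeff 0 = x at *
      generalize D.coeff 1 = δ at *
      have p1 : x ^ (j + 1 + 2) = x ^ j * x ^ 3 := by ring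
      have p2 : x ^ (j + 2) = x ^ j * x ^ 2 := by ring
      have p3 : x ^ (j + 1) = x ^ j * x := by ring
      rw [p1]
      rw [p2] at h2
      rw [p3] at hw ⊢
      generalize x ^ j = y at *
      linear_combination h2 - (x * y * x * κ) * he + x ^ 2 * ρ ^ 2 * hw

theorem NWT_clear {R S : Type} [CommRing R] [CommRing S] [Algebra R S] (δ : R) (z : S) (n : ℕ) (a : R)
    (h : z * algebraMap R S δ ^ n = algebraMap R S a) (L : ℕ) (hL : n ≤ L) :
    ∃ a' : R, z * algebraMap R S δ ^ L = algebraMap R S a' := by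
  refine ⟨a * δ ^ (L - n), ?_⟩
  rw [map_mul, map_pow, ← h, mul_assoc, ← pow_add, Nat.add_sub_cancel' hL]

theorem p_NWT : Stmt_NWT := by
  intro R _ _ p hp n a b c D u hdet hx hδ hu
  have hδ0 : D.coeff 1 ≠ 0 := fun h => hδ (h ▸ p.zero_mem)
  let S := Localization.Away (D.coeff 1)
  let φ : R →+* S := algebraMap R S
  have hinj : Function.Injective φ := by
    apply IsLocalization.injective S (M := Submonoid.powers (D.coeff 1))
    exact powers_le_nonZeroDivisors_of_noZeroDivisors hδ0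
  obtain ⟨e, he⟩ := (IsLocalization.Away.algebraMap_isUnit (S := S) (D.coeff 1)).exists_right_inv
  have he' : (D.map φ).coeff 1 * e = 1 := by
    rw [coeff_map]
    exact he
  obtain ⟨ρ, ρ', κ, h1, h2⟩ := NWT_newton (D.map φ) e he' n
  rw [coeff_map, coeff_map] at h1
  rw [coeff_map] at h2
  have hdet' := congrArg (fun q : Polynomial R => (q.map φ).eval (φ (D.coeff 0) * ρ)) hdet
  simp only [Polynomial.map_sub, Polynomial.map_mul, Polynomial.map_pow, map_X, eval_sub, eval_mul, eval_pow, eval_X] at hdet'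
  have h3 := NWT_one (u.map φ) (φ (D.coeff 0) * ρ)
  rw [coeff_map] at h3
  have h4 := NWT_two (b.map φ) (φ (D.coeff 0) * ρ)
  rw [coeff_map, coeff_map] at h4
  obtain ⟨w, hw⟩ := sub_dvd_pow_sub_pow (-1 + φ (D.coeff 0) * ρ') (-1) n
  rw [← h1, mul_pow] at hw
  generalize hB : (b.map φ).eval (φ (D.coeff 0) * ρ) = B at *
  generalize hC : (c.map φ).eval (φ (D.coeff 0) * ρ) = C at *
  generalize hA : (a.map φ).eval (φ (D.coeff 0) * ρ) = A at *
  generalize hU : (u.map φ).eval (φ (D.coeff 0) * ρ) = U at *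
  generalize hU1 : ((u.map φ).divX).eval (φ (D.coeff 0) * ρ) = U1 at *
  generalize hB1 : ((b.map φ).divX.divX).eval (φ (D.coeff 0) * ρ) = B1 at *
  -- the product
  obtain ⟨κ4, hκ4⟩ : ∃ κ4 : S, φ (D.coeff 1) ^ n * (B * C) = φ (D.coeff 0) ^ n * (-((-1) ^ n * φ (u.coeff 0)) + φ (D.coeff 0) * κ4) := by
    refine ⟨φ (D.coeff 1) ^ n * (φ (D.coeff 0) * A * κ - ρ ^ n * ρ * U1) - ρ' * w * φ (u.coeff 0), ?_⟩
    have e1 : B * C = A * (φ (D.coeff 0) ^ (n + 2) * κ) - (φ (D.coeff 0) * ρ) ^ n * U := by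
      rw [← hdet', h2]
      ring
    have e2 : φ (D.coeff 0) ^ (n + 2) = φ (D.coeff 0) ^ n * φ (D.coeff 0) ^ 2 := pow_add _ _ _
    rw [e1, h3, mul_pow, e2]
    linear_combination (-(φ (D.coeff 0) ^ n * φ (u.coeff 0))) * hw - (φ (D.coeff 0) ^ n * φ (u.coeff 0) * w) * h1
  obtain ⟨κ5, hκ5⟩ : ∃ κ5 : S, φ (D.coeff 1) * B = φ (D.coeff 1) * φ (b.coeff 0) - φ (b.coeff 1) * φ (D.coeff 0) + φ (D.coeff 0) ^ 2 * κ5 := by
    refine ⟨φ (b.coeff 1) * ρ' + φ (D.coeff 1) * ρ ^ 2 * B1, ?_⟩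
    rw [h4]
    linear_combination (φ (b.coeff 1) * φ (D.coeff 0)) * h1
  obtain ⟨n1, a1, g1⟩ := IsLocalization.Away.surj (D.coeff 1) B
  obtain ⟨n2, a2, g2⟩ := IsLocalization.Away.surj (D.coeff 1) C
  obtain ⟨n3, a3, g3⟩ := IsLocalization.Away.surj (D.coeff 1) κ4
  obtain ⟨n4, a4, g4⟩ := IsLocalization.Away.surj (D.coeff 1) κ5
  obtain ⟨b', k1⟩ := NWT_clear _ _ _ _ g1 (n1 + n2 + n3 + n4) (by omega)
  obtain ⟨c', k2⟩ := NWT_clear _ _ _ _ g2 (n1 + n2 + n3 + n4) (by omega)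
  obtain ⟨k4, k3⟩ := NWT_clear _ _ _ _ g3 (n1 + n2 + n3 + n4) (by omega)
  obtain ⟨k5, k5h⟩ := NWT_clear _ _ _ _ g4 (n1 + n2 + n3 + n4) (by omega)
  generalize n1 + n2 + n3 + n4 = L at *
  change B * φ (D.coeff 1) ^ L = φ b' at k1
  change C * φ (D.coeff 1) ^ L = φ c' at k2
  change κ4 * φ (D.coeff 1) ^ L = φ k4 at k3
  change κ5 * φ (D.coeff 1) ^ L = φ k5 at k5h
  refine ⟨b', -((-1) ^ n * (D.coeff 1 ^ (L + L) * u.coeff 0)) + D.coeff 0 * (D.coeff 1 ^ L * k4), k5, L, ?_, ?_, ?_⟩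
  · intro hs
    have q1 : (-1) ^ n * (D.coeff 1 ^ (L + L) * u.coeff 0) ∈ p := by
      have q2 : D.coeff 0 * (D.coeff 1 ^ L * k4) ∈ p := p.mul_mem_right _ hx
      have q3 := p.sub_mem q2 hs
      have q4 : D.coeff 0 * (D.coeff 1 ^ L * k4) - (-((-1) ^ n * (D.coeff 1 ^ (L + L) * u.coeff 0)) + D.coeff 0 * (D.coeff 1 ^ L * k4)) =
        (-1) ^ n * (D.coeff 1 ^ (L + L) * u.coeff 0) := by ring
      rwa [q4] at q3
    rcases hp.mem_or_mem q1 with q | q
    · have q5 := hp.mem_of_pow_mem _ q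
      have q6 : (1 : R) ∈ p := by
        have := p.neg_mem q5
        rwa [neg_neg] at this
      exact hp.ne_top ((Ideal.eq_top_iff_one p).2 q6)
    · rcases hp.mem_or_mem q with q | q
      · exact hδ (hp.mem_of_pow_mem _ q)
      · exact hu q
  · refine ⟨D.coeff 1 ^ n * c', ?_⟩
    apply hinj
    simp only [map_mul, map_add, map_neg, map_pow, map_one]
    rw [← k1, ← k2, ← k3, pow_add]
    linear_combination (-(φ (D.coeff 1) ^ L * φ (D.coeff 1) ^ L)) * hκ4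
  · apply hinj
    simp only [map_mul, map_add, map_neg, map_pow, map_sub]
    rw [← k1, ← k5h]
    linear_combination (φ (D.coeff 1) ^ L) * hκ5

end Pool.LTO
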