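import Pool.Agent.Work.MP_03d391_lto.Interface

/-!
# Block ZER (typed by helper43)
-/

set_option autoImplicit false

noncomputable section

namespace Pool.LTO

open MvPolynomial

/-- The ideal of all `r : S[t]` with `r • e ∈ E`. -/
def ZER_A {k : Type} [Field k] (E : Submodule (Polynomial (Sx k)) (Fr k)) (e : Fr k) : Ideal (Polynomial (Sx k)) :=
  E.comap (LinearMap.toSpanSingleton (Polynomial (Sx k)) (Fr k) e)

theorem ZER_mem {k : Type} [Field k] (E : Submodule (Polynomial (Sx k)) (Fr k)) (e : Fr k) (r : Polynomial (Sx k)) :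
    r ∈ ZER_A E e ↔ r • e ∈ E := Iff.rfl

theorem ZER_point {k : Type} [Field k] (E : Submodule (Polynomial (Sx k)) (Fr k)) (hB : Bundle k 0 E) (e : Fr k)
    (p : Ideal (Sx k)) (hp : p.IsPrime) (hx : ∃ i : Fin 4, (X i : Sx k) ∉ p) :
    ∃ s : Sx k, s ∉ p ∧ Polynomial.C s ∈ ZER_A E e := by
  obtain ⟨v, hv, w, hw, h, u, -, hu, -, hdet⟩ := hB.loc p hp hx
  obtain ⟨N, hN⟩ := hB.pow
  have hu1 : u ∈ ZER_A E e := by
    rw [ZER_mem]
    have : u • e = (e 0 * w 1 - e 1 * w 0) • v + (v 0 * e 1 - v 1 * e 0) • w := by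
      rw [pow_zero, one_mul] at hdet
      rw [← hdet]
      funext a
      fin_cases a
      · simp only [Fin.zero_eta, Fin.isValue, Pi.smul_apply, smul_eq_mul, Pi.add_apply]
        ring
      · simp only [Fin.mk_one, Fin.isValue, Pi.smul_apply, smul_eq_mul, Pi.add_apply]
        ring
    rw [this]
    exact E.add_mem (E.smul_mem _ hv) (E.smul_mem _ hw)
  have hX : (Polynomial.X : Polynomial (Sx k)) ^ N ∈ ZER_A E e := (ZER_mem _ _ _).2 (hN e)
  refine ⟨u.coeff 0 ^ N, fun h => hu (hp.mem_of_pow_mem _ h), ?_⟩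
  have hsplit : u = Polynomial.C (u.coeff 0) - -(Polynomial.X * u.divX) := by
    rw [sub_neg_eq_add, add_comm]
    exact (Polynomial.X_mul_divX_add u).symm
  have hdvd : u ∣ Polynomial.C (u.coeff 0) ^ N - (-(Polynomial.X * u.divX)) ^ N := by
    nth_rewrite 1 [hsplit]
    exact sub_dvd_pow_sub_pow _ _ _
  have h1 : Polynomial.C (u.coeff 0) ^ N - (-(Polynomial.X * u.divX)) ^ N ∈ ZER_A E e := by
    obtain ⟨c, hc⟩ := hdvd
    rw [hc]
    exact Ideal.mul_mem_right _ _ hu1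
  have h2 : (-(Polynomial.X * u.divX)) ^ N ∈ ZER_A E e := by
    have : (-(Polynomial.X * u.divX)) ^ N = (-u.divX) ^ N * Polynomial.X ^ N := by
      rw [← mul_pow]; congr 1; ring
    rw [this]
    exact Ideal.mul_mem_left _ _ hX
  have h3 := Ideal.add_mem _ h1 h2
  rw [sub_add_cancel] at h3
  rw [Polynomial.C_pow]
  exact h3

/-- Block ZER. -/
theorem p_ZER : Stmt_ZER := by
  intro k _ E hB
  rw [eq_top_iff]
  intro e _
  apply hB.sat
  intro i
  have hrad : (X i : Sx k) ∈ ((ZER_A E e).comap (Polynomial.C : Sx k →+* Polynomial (Sx k))).radical := by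
    rw [Ideal.radical_eq_sInf, Ideal.mem_sInf]
    rintro p ⟨hJ, hp⟩
    by_contra hi
    obtain ⟨s, hs, hs'⟩ := ZER_point E hB e p hp ⟨i, hi⟩
    exact hs (hJ hs')
  obtain ⟨N, hN⟩ := hrad
  exact ⟨N, hN⟩

end Pool.LTO
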