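import Pool.Agent.Work.MP_03d391_lto.Interface

/-! # MP_03d391_ag, THEOREM T1: block FIN -/

set_option autoImplicit false

noncomputable section

namespace Pool.LTO

open MvPolynomial

theorem FIN_map (k : Type) [Field k] (c c' : Fin 2 → k) (v : Fin 2 → Polynomial k) :
    Tc c c' (fun a => (v a).map (C : k →+* Sx k)) =
      fun a => (Polynomial.C (c a) * v 0 + Polynomial.X * (Polynomial.C (c' a) * v 1)).map
        (C : k →+* Sx k) := by
  funext a
  simp only [Tc, LinearMap.coe_mk, AddHom.coe_mk, Polynomial.map_add, Polynomial.map_mul,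
    Polynomial.map_C, Polynomial.map_X]

theorem FIN_core (hDIR : Stmt_DIR) (hZER : Stmt_ZER) (hCHG : Stmt_CHG) (k : Type) [Field k]
    [CharZero k] (n : ℕ) : ∀ E : Submodule (Polynomial (Sx k)) (Fr k), Bundle k n E →
      TypeLeOne k E → ∃ v w : Fin 2 → Polynomial k, E = Submodule.span (Polynomial (Sx k))
        {fun a => (v a).map (C : k →+* Sx k), fun a => (w a).map (C : k →+* Sx k)} := by
  induction n with
  | zero =>
    intro E hE _
    refine ⟨![1, 0], ![0, 1], ?_⟩
    rw [hZER k E hE]
    symm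
    rw [eq_top_iff]
    intro e _
    rw [Submodule.mem_span_pair]
    refine ⟨e 0, e 1, ?_⟩
    funext a
    fin_cases a
    · simp
    · simp
  | succ n ih =>
    intro E hE hT
    obtain ⟨c, hc, hcE⟩ := hDIR k (n + 1) E (by omega) hE hT
    obtain ⟨c', hdet⟩ : ∃ c' : Fin 2 → k, c 0 * c' 1 - c 1 * c' 0 ≠ 0 := by
      by_cases h0 : c 0 = 0
      · have h1 : c 1 ≠ 0 := by
          intro h1
          apply hc
          funext a
          fin_cases a
          · exact h0
          · exact h1
        refine ⟨![1, 0], ?_⟩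
        simp [h0, h1]
      · refine ⟨![0, 1], ?_⟩
        simp [h0]
    obtain ⟨hB, hTy, hEq⟩ := hCHG k n E c c' hdet hE hcE
    obtain ⟨v, w, hvw⟩ := ih _ hB (hTy hT)
    refine ⟨fun a => Polynomial.C (c a) * v 0 + Polynomial.X * (Polynomial.C (c' a) * v 1),
      fun a => Polynomial.C (c a) * w 0 + Polynomial.X * (Polynomial.C (c' a) * w 1), ?_⟩
    rw [← FIN_map k c c' v, ← FIN_map k c c' w, hEq, hvw, Submodule.map_span, Set.image_pair]

theorem p_FIN (hDIR : Stmt_DIR) (hZER : Stmt_ZER) (hLOW : Stmt_LOW) (hCHG : Stmt_CHG) :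
    Stmt_FIN := by
  intro k _ _ n E hE hn
  refine FIN_core hDIR hZER hCHG k n E hE ?_
  rcases hn with h | h
  · exact hLOW k n E hE h
  · exact h

end Pool.LTO
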