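import Pool.Agent.Work.MP_03d391_lto.Interface

/-!
# Block UFD
-/

namespace Pool.LTO

theorem UFD_one {R : Type} [CommRing R] (d : R → R)
    (hd : ∀ a b, d (a * b) = a * d b + b * d a) : d 1 = 0 := by
  have h := hd 1 1
  rw [mul_one, one_mul] at h
  exact left_eq_add.1 h

theorem p_UFD : Stmt_UFD := by
  intro R _ _ _ d hd b r n hb
  induction b using UniqueFactorizationMonoid.induction_on_prime with
  | h₁ =>
    have h0 : r ^ n = 0 := zero_dvd_iff.1 hb
    have hr : r = 0 := by
      by_contra h
      exact pow_ne_zero n h h0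
    rw [hr, zero_mul]
  | h₂ x hx => exact hx.dvd
  | h₃ a p ha hp ih =>
    have h1 : a ∣ r ^ n := (Dvd.intro_left p rfl).trans hb
    have h2 : p ∣ r := hp.dvd_of_dvd_pow ((Dvd.intro a rfl).trans hb)
    rw [hd, mul_add]
    apply dvd_add
    · have : r * (p * d a) = p * (r * d a) := by ring
      rw [this]
      exact mul_dvd_mul_left p (ih h1)
    · have : r * (a * d p) = (r * a) * d p := by ring
      rw [this]
      exact Dvd.dvd.mul_right (mul_dvd_mul_right h2 a) _

end Pool.LTO
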