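import Mathlib

/-!
# MP_03d391_ag, THEOREM T1 (helper64, with helper63)

`k` a field of characteristic `0`, `S = k[x_0,..,x_3]`, `F = S[t]^2`. `E ≤ F` graded, saturated, containing `t^N F`, locally free of rank `2` with determinant `t^n`
(a vector bundle on `ℙ³ × Spec k[[t]]`, trivial outside `t = 0`). If at every point of `ℙ³` the type of `E` in `F` is `(n,0)` or `(n-1,1)` (always true for `n ≤ 3`),
then `E` is generated by two vectors with coordinates in `k[t]`.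

Notation in the hints: `e ∈ F` is `(e 0, e 1) = (b, D)`, `b_j`, `D_j` are the coefficients of `t^j`. A point is a prime `p` of `S` with some `x_i ∉ p`. Paper proof: note of helper64 on MP_03d391_ag.
-/

set_option autoImplicit false

noncomputable section

namespace Pool.LTO

open MvPolynomial

/-- `S = k[x_0,..,x_3]`. -/
abbrev Sx (k : Type) [Field k] : Type := MvPolynomial (Fin 4) k

/-- `F = S[t]^2`. -/
abbrev Fr (k : Type) [Field k] : Type := Fin 2 → Polynomial (Sx k)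

/-- A vector bundle on `ℙ³ × Spec k[[t]]` inside the trivial bundle `F`, equal to `F` outside `t = 0`, with determinant `t^n`. -/
structure Bundle (k : Type) [Field k] (n : ℕ) (E : Submodule (Polynomial (Sx k)) (Fr k)) : Prop where
  hom : ∀ e ∈ E, ∀ m : ℕ, ∃ e' ∈ E, ∀ a j, (e' a).coeff j = homogeneousComponent m ((e a).coeff j)
  pow : ∃ N : ℕ, ∀ e : Fr k, (Polynomial.X : Polynomial (Sx k)) ^ N • e ∈ E
  sat : ∀ e : Fr k, (∀ i : Fin 4, ∃ N : ℕ, (Polynomial.C (X i ^ N : Sx k)) • e ∈ E) → e ∈ E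
  loc : ∀ p : Ideal (Sx k), p.IsPrime → (∃ i : Fin 4, (X i : Sx k) ∉ p) →
    ∃ v ∈ E, ∃ w ∈ E, ∃ h u : Polynomial (Sx k), h.coeff 0 ∉ p ∧ u.coeff 0 ∉ p ∧
      (∀ e ∈ E, ∃ a b : Polynomial (Sx k), h • e = a • v + b • w) ∧ v 0 * w 1 - v 1 * w 0 = Polynomial.X ^ n * u

/-- At every point `E` is not contained in `p F + t^2 F`: type `(n,0)` or `(n-1,1)`. -/
def TypeLeOne (k : Type) [Field k] (E : Submodule (Polynomial (Sx k)) (Fr k)) : Prop :=
  ∀ p : Ideal (Sx k), p.IsPrime → (∃ i : Fin 4, (X i : Sx k) ∉ p) → ∃ e ∈ E, ∃ a, (e a).coeff 0 ∉ p ∨ (e a).coeff 1 ∉ p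

/-- `p_i(v) = D_0 ∂_i b_0 - b_0 ∂_i D_0`. -/
def Pd {k : Type} [Field k] (i : Fin 4) (v : Fr k) : Sx k :=
  (v 1).coeff 0 * pderiv i ((v 0).coeff 0) - (v 0).coeff 0 * pderiv i ((v 1).coeff 0)

/-- `q(v) = b_1 D_0 - b_0 D_1`. -/
def Qd {k : Type} [Field k] (v : Fr k) : Sx k :=
  (v 0).coeff 1 * (v 1).coeff 0 - (v 0).coeff 0 * (v 1).coeff 1

/-- `I(v) = (q(v), D_0^2, D_0 b_0, b_0^2)`. -/
def Jd {k : Type} [Field k] (v : Fr k) : Ideal (Sx k) :=
  Ideal.span {Qd v, (v 1).coeff 0 ^ 2, (v 1).coeff 0 * (v 0).coeff 0, (v 0).coeff 0 ^ 2}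

/-- `(α, β) ↦ α c + t β c'`. -/
def Tc {k : Type} [Field k] (c c' : Fin 2 → k) : Fr k →ₗ[Polynomial (Sx k)] Fr k where
  toFun e := fun a => Polynomial.C (C (c a)) * e 0 + Polynomial.X * (Polynomial.C (C (c' a)) * e 1)
  map_add' x y := by
    funext a
    simp only [Pi.add_apply]
    ring
  map_smul' r x := by
    funext a
    simp only [Pi.smul_apply, smul_eq_mul, RingHom.id_apply]
    ring

/-- **UFD** (40). `d` satisfies the Leibniz rule. Induction on the prime factorization of `b` (`UniqueFactorizationMonoid.induction_on_prime`): `b = 0` gives `r = 0`; units divide everything;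
`b = π b''`: `b'' ∣ r^n`, `π ∣ r` (`Prime.dvd_of_dvd_pow`), `r d(π b'') = r π d b'' + b'' r d π`; `b'' ∣ r d b''` by induction. -/
def Stmt_UFD : Prop := ∀ (R : Type) [CommRing R] [IsDomain R] [UniqueFactorizationMonoid R] (d : R → R),
  (∀ a b, d (a * b) = a * d b + b * d a) → ∀ (b r : R) (n : ℕ), b ∣ r ^ n → b ∣ r * d b

/-- **NWT** (150). NEWTON. Let `δ = D_1 ∉ p`, `x = D_0 ∈ p`, `R' = Localization.Away δ`, `φ : R → R'` (injective: `IsLocalization.injective`, `δ ≠ 0`), `ε = δ⁻¹` in `R'`.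
(1) For every `j ≥ 1` there are `ρ, ρ', κ` in `R'` with `δ ρ = -1 + x ρ'`, `D(x ρ) = x^(j+1) κ` (evaluation of the mapped polynomial). `j = 1`: `ρ = -ε`, `ρ' = 0` (`D(-ε x) = x - δ ε x + x^2 (..)`). Step: `r = x ρ`, `ρ1 = ρ - ε x^j κ`, `r' = x ρ1 = r - ε D(r)`:
`δ ρ1 = -1 + x (ρ' - x^(j-1) κ)`, `D(r') = D(r) + (r' - r)(δ + x κ')` (because `Y^i - Z^i ∈ (Y - Z) x R'` for `Y, Z ∈ x R'`, `i ≥ 2`; induction on the polynomial `D - D_0 - δ t`) `= -ε x^(j+2) κ κ'`.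
(2) With `j = n + 1`, `r = x ρ`: `b(r) c(r) = a(r) D(r) - r^n u(r) = x^n (x κ2 - ρ^n u_0)`, and `δ^n (x κ2 - ρ^n u_0) = -(-1)^n u_0 + x κ4`.
(3) `δ b(r) = δ b_0 - b_1 x + x^2 κ5`.
(4) Clear denominators (`IsLocalization.Away.surj`, `exist_integer_multiples`): `b' = δ^L b(r)`, `L` large; the factor `s = δ^M (∓ δ^M' u_0 + x k4)` is not in `p`. -/
def Stmt_NWT : Prop := ∀ (R : Type) [CommRing R] [IsDomain R] (p : Ideal R), p.IsPrime → ∀ (n : ℕ) (a b c D u : Polynomial R),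
  a * D - b * c = Polynomial.X ^ n * u → D.coeff 0 ∈ p → D.coeff 1 ∉ p → u.coeff 0 ∉ p →
  ∃ (b' s κ : R) (L : ℕ), s ∉ p ∧ b' ∣ s * D.coeff 0 ^ n ∧
    D.coeff 1 ^ L * (b.coeff 1 * D.coeff 0 - b.coeff 0 * D.coeff 1) = - (D.coeff 1 * b') + D.coeff 0 ^ 2 * κ

/-- **LOC** (80; uses UFD, NWT). `x = D_0`, `δ = D_1`, `q = b_1 x - b_0 δ`, `b', s, κ, L` from NWT. `b' ∣ (s x)^(n+1)`, so `s x d(b') = b' ε` (UFD). Apply `d` to `δ^L q = -δ b' + x^2 κ` and multiply by `s x δ`: with `δ b' = x^2 κ - δ^L q`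
this gives `s x δ^(L+1) d q = α1 q + β1 x^2`. Then `δ P = x^2 d b_1 - x d q - x b_0 d δ + q d x` for `P = x d b_0 - b_0 d x` and `δ x b_0 = x (b_1 x - q)`: `s δ^(L+2) P` is a combination. (`d (y^2) = 2 y d y` from the Leibniz rule; `d (-y) = - d y` from additivity.) -/
def Stmt_LOC : Prop := ∀ (R : Type) [CommRing R] [IsDomain R] [UniqueFactorizationMonoid R] (d : R → R),
  (∀ a b, d (a + b) = d a + d b) → (∀ a b, d (a * b) = a * d b + b * d a) → ∀ (p : Ideal R), p.IsPrime → ∀ (n : ℕ) (a b c D u : Polynomial R),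
  a * D - b * c = Polynomial.X ^ n * u → D.coeff 0 ∈ p → D.coeff 1 ∉ p → u.coeff 0 ∉ p →
  ∃ s : R, s ∉ p ∧ ∃ α β : R, s * (D.coeff 0 * d (b.coeff 0) - b.coeff 0 * d (D.coeff 0)) =
    α * (b.coeff 1 * D.coeff 0 - b.coeff 0 * D.coeff 1) + β * D.coeff 0 ^ 2

/-- **CON** (80). CONSTANTS. If `b = 0` or `D = 0` take `c = (0,1)` or `(1,0)`. Otherwise write `b = g b~`, `D = g D~` with `b~, D~` relatively prime (`UniqueFactorizationMonoid.exists_reduced_factors'` or similar), then `D~ ∂_i b~ = b~ ∂_i D~` (cancel `g^2`), so `D~ ∣ ∂_i D~`,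
hence `∂_i D~ = 0` (`totalDegree` of a nonzero `∂_i D~` is smaller than that of `D~`; `totalDegree_mul_of_isDomain`), so `D~` is constant (characteristic `0`: coefficient of `∂_i D~`); the same for `b~`. -/
def Stmt_CON : Prop := ∀ (k : Type) [Field k] [CharZero k] (b D : Sx k), (∀ i, D * pderiv i b = b * pderiv i D) →
  ∃ (c : Fin 2 → k) (g : Sx k), c ≠ 0 ∧ b = C (c 0) * g ∧ D = C (c 1) * g

/-- **IND** (90). TWO INDEPENDENT VARIABLES. `K = Frac S` has transcendence degree `4` over `k`, `K' = k(z,w)` at most `2` (`Algebra.trdeg_le_cardinalMk`), so `K` has at least `2` over `K'` (`Algebra.trdeg_add_eq`). `K` is algebraic over `K'[x_0..x_3]`,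
so a subset of `{x_0..x_3}` is a transcendence basis (`exists_isTranscendenceBasis_subset`), it has two different elements. -/
def Stmt_IND : Prop := ∀ (k : Type) [Field k] (z w : FractionRing (Sx k)), ∃ i j : Fin 4, i ≠ j ∧
  AlgebraicIndependent (IntermediateField.adjoin k {z, w})
    ![algebraMap (Sx k) (FractionRing (Sx k)) (X i), algebraMap (Sx k) (FractionRing (Sx k)) (X j)]

/-- **LA** (140; uses IND). LEMMA A. `z = b/D`, `w = q/D^2` in `K = Frac S`, `K' = k(z,w)`. `W l` = the `K'`-span of the images of the forms of degree `l` (spanned by the monomials of degree `l`: finite dimensional). Suppose `f ≠ 0`, `θ = f/D^2`.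
For `N` with `x_j^N f ∈ (q,D^2,Db,b^2)` for all `j` and a form `s` of degree `n ≥ 4N`: every monomial of `s` is divisible by some `x_j^N`, so `s f = s1 q + s2 D^2 + s3 D b + s4 b^2`; take the component of degree `n + l` (`homogeneousComponent`): the `s_i` may be taken of degree
`n + l - 2m`, so `θ s ∈ W (n + l - 2m)`. Multiplication by `θ` is injective `W n → W (n - (2m - l))`: `finrank W n ≤ finrank W (n - (2m-l))` for `n ≥ 4N + 2m`, so `finrank W n` is bounded. But the monomials `x_i^a x_j^(n-a)`, `a ≤ n`, with `i, j` from IND are linearly independent over `K'`: `finrank W n ≥ n + 1`. -/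
def Stmt_LA : Prop := ∀ (k : Type) [Field k] (m l : ℕ) (b D q f : Sx k), b.IsHomogeneous m → D.IsHomogeneous m → q.IsHomogeneous (2 * m) →
  f.IsHomogeneous l → l < 2 * m → D ≠ 0 → (∀ j : Fin 4, ∃ N : ℕ, (X j : Sx k) ^ N * f ∈ Ideal.span {q, D ^ 2, D * b, b ^ 2}) → f = 0

/-- **CLM** (140; uses LOC). THE CLAIM AT A POINT `p`. First (R): for `e, e' ∈ E` the coefficient of `t^0` in `det(e,e')` is `0`, and if `n ≥ 2` also that of `t^1` (use `loc` at the prime `0`: `h^2 det(e,e') = (..) t^n u`, `h.coeff 0 ≠ 0`). Let `v, w, h, u` be from `loc` at `p`.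
(a) If some `e ∈ E` has `D_0(e) ∉ p`: `D_0(e)^2 Pd i z = D_0(z)^2 Pd i e` (proportional vectors; derive `b_0(e) D_0(z) = D_0(e) b_0(z)`), so `s = D_0(e)^2`. If `b_0(e) ∉ p`: `s = b_0(e)^2` in the same way.
(b) Otherwise all `e_0 ∈ p`. By `TypeLeOne` some `e` has `e_1 ∉ p`; `h e = α v + β w` gives `v_1 ∉ p` or `w_1 ∉ p` (in one coordinate). `n ≥ 2`: else the coefficient of `t^1` in `det(v,w)` is in `p` and equals `u_0 ∉ p` (`n = 1`).
By symmetry (swap `v,w`; swap the coordinates: `Pd`, `Qd` change sign, `Jd` is symmetric) let `D_1(v) ∉ p`. (b1) `D_0(v) = 0`: then `b_0(v) = 0` (as `D_0(z) ≠ 0`). Not all `e_0` vanish (`z_0 ≠ 0`), so `w_0 ≠ 0`, `b_0(w) D_1(v) = b_1(v) D_0(w)` (divide `det` by `t`, `n ≥ 2`), and `w_0` is proportional to `z_0`: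
`b_0(z) D_1(v) = b_1(v) D_0(z)`, so `D_1(v)^2 Pd i z = D_0(z)^2 (D_1(v) ∂_i b_1(v) - b_1(v) ∂_i D_1(v))`. (b2) `D_0(v) ≠ 0`: LOC with `d = pderiv i`, `R = S`, the determinant relation `a D - b c = ± t^n u` (`(a,c) = w`), gives `s Pd i v ∈ (q(v), D_0(v)^2)`; multiply by `D_0(z)^2`:
`Pd i v D_0(z)^2 = Pd i z D_0(v)^2`, `Qd v D_0(z)^2 = Qd z D_0(v)^2` (uses the coefficient of `t^1` of `det(v,z)`), cancel `D_0(v)^2`. -/
def Stmt_CLM : Prop := ∀ (k : Type) [Field k] (n : ℕ) (E : Submodule (Polynomial (Sx k)) (Fr k)), 1 ≤ n → Bundle k n E → TypeLeOne k E →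
  ∀ z ∈ E, (z 0).coeff 0 ≠ 0 → (z 1).coeff 0 ≠ 0 → ∀ p : Ideal (Sx k), p.IsPrime → (∃ i : Fin 4, (X i : Sx k) ∉ p) →
  ∀ i : Fin 4, ∃ s : Sx k, s ∉ p ∧ s * Pd i z ∈ Jd z

/-- **DIR** (120; uses CLM, LA, CON). THE DIRECTION IS CONSTANT. If all `e_0 = 0`: `c = (1,0)`, `g = 0`. Otherwise `hom` gives `z ∈ E` all of whose coefficients are homogeneous of one degree `m`, `z_0 ≠ 0`. If `b_0(z) = 0` or `D_0(z) = 0`: `c = (0,1)` or `(1,0)` works for `z`.
Otherwise by CLM the ideal `{s : s Pd i z ∈ Jd z}` is contained in no prime `p` with some `x_j ∉ p`, so every `x_j` is in its radical (`Ideal.radical_eq_sInf`); LA with `b = b_0`, `D = D_0`, `q = Qd z`, `f = Pd i z` of degree `2m - 1` (`IsHomogeneous.pderiv`; `m = 0`: `Pd = 0`) gives `Pd i z = 0` for all `i`, CON gives `c, g` for `z`.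
For `e ∈ E`: `det(e,z)` has zero constant coefficient, so `b_0(e) c_1 g = D_0(e) c_0 g`, cancel `g ≠ 0`: `e_0 ∈ S c`. -/
def Stmt_DIR : Prop := ∀ (k : Type) [Field k] [CharZero k] (n : ℕ) (E : Submodule (Polynomial (Sx k)) (Fr k)), 1 ≤ n → Bundle k n E → TypeLeOne k E →
  ∃ c : Fin 2 → k, c ≠ 0 ∧ ∀ e ∈ E, ∃ g : Sx k, ∀ a, (e a).coeff 0 = C (c a) * g

/-- **ZER** (60). `n = 0`. For `e : F` the ideal `{s : C s • e ∈ E}` is in no prime `p` with some `x_i ∉ p`: `u • e ∈ E` (Cramer), `t^N • e ∈ E`, and `u_0^N` is in the ideal `(u, t^N)` of `S[t]` (`u_0 = u - t u'`). So it contains a power of every `x_i`, and `sat` applies. -/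
def Stmt_ZER : Prop := ∀ (k : Type) [Field k] (E : Submodule (Polynomial (Sx k)) (Fr k)), Bundle k 0 E → E = ⊤

/-- **LOW** (40). `n ≤ 3` implies type `≤ 1`: if all coefficients `0` and `1` of `v` and `w` are in `p`, all coefficients up to `t^3` of `det(v,w)` are in `p`, but that of `t^n` is `u_0 ∉ p`. -/
def Stmt_LOW : Prop := ∀ (k : Type) [Field k] (n : ℕ) (E : Submodule (Polynomial (Sx k)) (Fr k)), Bundle k n E → n ≤ 3 → TypeLeOne k E

/-- **CHG** (150). CHANGE OF THE CONSTANT LATTICE. `c, c'` a basis of `k^2`, all `e_0 ∈ S c` for `e ∈ E`. `E' = E.comap (Tc c c')`. Every `e ∈ E` is `Tc c c' e'` for a unique `e'` (write `e = α c + γ c'` with `α, γ` = `k`-combinations of `e 0, e 1`, `γ.coeff 0 = 0`, `γ = t β`). `det(Tc v', Tc w') = t det(c,c') det(v',w')`.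
`hom`: components commute with `Tc`. `pow`: `t^(N+1)`.. (`Tc` is onto modulo nothing is needed: `t^N • e' ∈ E'` iff `t^N Tc e' ∈ E`). `TypeLeOne`: `e_0 = α_0 c`, `e_1 = α_1 c + β_0 c'`: if `α_0, α_1, β_0 ∈ p` then `e_0, e_1 ∈ p`. -/
def Stmt_CHG : Prop := ∀ (k : Type) [Field k] (n : ℕ) (E : Submodule (Polynomial (Sx k)) (Fr k)) (c c' : Fin 2 → k), c 0 * c' 1 - c 1 * c' 0 ≠ 0 →
  Bundle k (n + 1) E → (∀ e ∈ E, ∃ g : Sx k, ∀ a, (e a).coeff 0 = C (c a) * g) →
  Bundle k n (E.comap (Tc c c')) ∧ (TypeLeOne k E → TypeLeOne k (E.comap (Tc c c'))) ∧ E = (E.comap (Tc c c')).map (Tc c c')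

/-- **FIN** (80; uses DIR, ZER, LOW, CHG). Strong induction on `n`. `n = 0`: ZER, `⊤` is spanned by the unit vectors. `n ≥ 1`: DIR gives `c`; extend to a basis `c, c'` (`c' = (0,1)` if `c 0 ≠ 0`, else `(1,0)`); CHG and the induction hypothesis for `n - 1`: `E' = span {v, w}`, so
`E = map (Tc c c') E' = span {Tc v, Tc w}` (`Submodule.map_span`), again with coefficients in `k[t]`. -/
def Stmt_FIN : Prop := ∀ (k : Type) [Field k] [CharZero k] (n : ℕ) (E : Submodule (Polynomial (Sx k)) (Fr k)), Bundle k n E → (n ≤ 3 ∨ TypeLeOne k E) →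
  ∃ v w : Fin 2 → Polynomial k, E = Submodule.span (Polynomial (Sx k)) {fun a => (v a).map (C : k →+* Sx k), fun a => (w a).map (C : k →+* Sx k)}

end Pool.LTO
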